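import Mathlib
import Pool.Agent.H634R3.PPC.SolvDens

set_option autoImplicit false

/-!
# Point-transitive projective planes with a group of even order: statements of the steps
-/

namespace Pool.Agent.H634R3.WG

open Configuration Configuration.ProjectivePlane Filter Topology

/-- the group `G` acts by collineations, faithfully on the points -/
structure Col (G P L : Type) [Group G] [Membership P L] [MulAction G P] [MulAction G L] : Prop where
  inc : ∀ (g : G) (p : P) (l : L), g • p ∈ g • l ↔ p ∈ l
  ff : ∀ g : G, (∀ p : P, g • p = p) → g = 1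

/-- `g` is a perspectivity with centre `c` and axis `l` (possibly the identity) -/
structure Persp {G P L : Type} [Group G] [Membership P L] [MulAction G P] [MulAction G L]
    (g : G) (c : P) (l : L) : Prop where
  ax : ∀ p : P, p ∈ l → g • p = p
  ce : ∀ m : L, c ∈ m → g • m = m

/-- the fixed points and lines of a perspectivity -/
def TaskFix : Prop := ∀ (G P L : Type) [Group G] [Finite G] [Finite P] [Finite L] [Membership P L]
  [ProjectivePlane P L] [MulAction G P] [MulAction G L], Col G P L →
  ∀ (g : G) (c : P) (l : L), Persp g c l → g ≠ 1 →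
    (∀ z : P, g • z = z → z = c ∨ z ∈ l) ∧ (∀ m : L, g • m = m → m = l ∨ c ∈ m) ∧
    g • c = c ∧ g • l = l

/-- a collineation with an axis has a centre -/
def TaskAxis : Prop := ∀ (G P L : Type) [Group G] [Finite G] [Finite P] [Finite L] [Membership P L]
  [ProjectivePlane P L] [MulAction G P] [MulAction G L], Col G P L →
  ∀ (g : G) (l : L), (∀ p : P, p ∈ l → g • p = p) → ∃ c : P, Persp g c l

/-- a collineation with a centre has an axis -/
def TaskCentre : Prop := ∀ (G P L : Type) [Group G] [Finite G] [Finite P] [Finite L]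
  [Membership P L] [ProjectivePlane P L] [MulAction G P] [MulAction G L], Col G P L →
  ∀ (g : G) (c : P), (∀ l : L, c ∈ l → g • l = l) → ∃ l : L, Persp g c l

/-- an involution has an axis or the order is a square -/
def TaskBaer : Prop := ∀ (G P L : Type) [Group G] [Finite G] [Finite P] [Finite L] [Membership P L]
  [ProjectivePlane P L] [MulAction G P] [MulAction G L], Col G P L →
  ∀ s : G, s * s = 1 → IsSquare (order P L) ∨ ∃ l : L, ∀ p : P, p ∈ l → s • p = p

/-- the product of two involutory homologies with the same axis -/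
def TaskProd : Prop := ∀ (G P L : Type) [Group G] [Finite G] [Finite P] [Finite L] [Membership P L]
  [ProjectivePlane P L] [MulAction G P] [MulAction G L], Col G P L →
  ∀ (s t : G) (c d : P) (l : L), s ≠ 1 → t ≠ 1 → s * s = 1 → t * t = 1 → Persp s c l →
    Persp t d l → c ∉ l → d ∉ l → c ≠ d → s * t ≠ 1 ∧ ∃ e : P, e ∈ l ∧ Persp (s * t) e l

/-- the product of two involutory homologies with the same centre -/
def TaskProdDual : Prop := ∀ (G P L : Type) [Group G] [Finite G] [Finite P] [Finite L]
  [Membership P L] [ProjectivePlane P L] [MulAction G P] [MulAction G L], Col G P L →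
  ∀ (s t : G) (c : P) (l m : L), s ≠ 1 → t ≠ 1 → s * s = 1 → t * t = 1 → Persp s c l →
    Persp t c m → c ∉ l → c ∉ m → l ≠ m → s * t ≠ 1 ∧ ∃ k : L, c ∈ k ∧ Persp (s * t) c k

/-- a polarity of a finite projective plane has an absolute point -/
def TaskPolarity : Prop := ∀ (P L : Type) [Finite P] [Finite L] [Membership P L]
  [ProjectivePlane P L] (f : P → L), Function.Injective f → (∀ x y : P, y ∈ f x ↔ x ∈ f y) →
  ∃ x : P, x ∈ f x

/-- Gleason's lemma -/
def TaskGleason : Prop := ∀ (G X : Type) [Group G] [Finite G] [Finite X] [MulAction G X]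
  (H : Subgroup G) (S : Set X) (p : ℕ), p.Prime → (∀ g ∈ H, ∀ x ∈ S, g • x ∈ S) →
  (∀ x ∈ S, ∃ g ∈ H, g ^ p = 1 ∧ ∀ y ∈ S, g • y = y ↔ y = x) →
  ∀ x ∈ S, ∀ y ∈ S, ∃ g ∈ H, g • x = y

/-- transitive on points implies transitive on lines -/
def TaskLines : Prop := ∀ (G P L : Type) [Group G] [Finite G] [Finite P] [Finite L]
  [Membership P L] [ProjectivePlane P L] [MulAction G P] [MulAction G L], Col G P L →
  (∀ x y : P, ∃ g : G, g • x = y) → ∀ l m : L, ∃ g : G, g • l = m

/-- a transitive group with an elation of prime order is transitive on flags -/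
def TaskFlag : Prop := ∀ (G P L : Type) [Group G] [Finite G] [Finite P] [Finite L] [Membership P L]
  [ProjectivePlane P L] [MulAction G P] [MulAction G L], Col G P L →
  (∀ x y : P, ∃ g : G, g • x = y) → (∀ l m : L, ∃ g : G, g • l = m) →
  ∀ (p : ℕ) (e : G) (c : P) (l : L), p.Prime → e ≠ 1 → e ^ p = 1 → c ∈ l → Persp e c l →
  ∀ (x y : P) (m k : L), x ∈ m → y ∈ k → ∃ g : G, g • x = y ∧ g • m = k

/-- the elation groups of an axis all whose points are centres of equally many elations are
transitive -/
def TaskCount : Prop := ∀ (G P L : Type) [Group G] [Finite G] [Finite P] [Finite L]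
  [Membership P L] [ProjectivePlane P L] [MulAction G P] [MulAction G L], Col G P L →
  ∀ (l : L) (h : ℕ), 2 ≤ h → (∀ c : P, c ∈ l → Nat.card {g : G // Persp g c l} = h) →
  h = order P L

/-- the order is a prime power if there is a prime `p` such that each point of an axis is the
centre of an elation of order `p`, and the elation groups are transitive -/
def TaskPP : Prop := ∀ (G P L : Type) [Group G] [Finite G] [Finite P] [Finite L]
  [Membership P L] [ProjectivePlane P L] [MulAction G P] [MulAction G L], Col G P L →
  ∀ (l : L) (p : ℕ), p.Prime → (∀ c : P, c ∈ l → Nat.card {g : G // Persp g c l} = order P L) →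
  (∀ c : P, c ∈ l → ∃ g : G, g ≠ 1 ∧ g ^ p = 1 ∧ Persp g c l) → IsPrimePow (order P L)

/-- squares and prime powers have density zero -/
def TaskDens : Prop :=
  Tendsto (fun N : ℕ => (Pool.Agent.H771R2.Dens.cnt (fun n => IsSquare n ∨ IsPrimePow n) N : ℝ) / N)
    atTop (𝓝 0)

/-- the main step: a transitive group with an involution -/
def TaskMain : Prop := ∀ (G P L : Type) [Group G] [Finite G] [Finite P] [Finite L] [Membership P L]
  [ProjectivePlane P L] [MulAction G P] [MulAction G L], Col G P L →
  (∀ x y : P, ∃ g : G, g • x = y) → ∀ s : G, s ≠ 1 → s * s = 1 →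
  IsSquare (order P L) ∨ IsPrimePow (order P L)

end Pool.Agent.H634R3.WG
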