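import Mathlib
import Pool.Agent.H951R4.OD.Main
import Pool.Agent.H951R4.OD.F1
import Pool.Agent.H634R3.WG.Stmts

set_option autoImplicit false

/-!
# Exact prime divisors of the values of `f`: statements
-/

namespace Pool.Agent.H634R3.WG

open Finset Pool.Agent.H951R4.OD

/-- as `Pass`, for the exact prime divisors of `f n` only -/
def PassX (f : ℕ → ℤ) (c0 n : ℕ) : Prop :=
  ∀ p q : ℕ, Ex c0 n p → q.Prime → ¬ q ∣ c0 → (q : ℤ) ∣ f n → ¬ (q : ℤ) ^ 2 ∣ f n → ch p q ≠ -1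

/-- as `Pol`; moreover each zero modulo `q` has at most one lift modulo `q ^ 2` -/
structure PolX (f : ℕ → ℤ) (c0 : ℕ) (e : ℝ) (Δ : ℤ) : Prop extends Pol f c0 e Δ where
  lift : ∀ q : ℕ, q.Prime → ¬ q ∣ c0 → ∀ a : ℕ, (q : ℤ) ∣ f a →
    ((range q).filter (fun j : ℕ => (q : ℤ) ^ 2 ∣ f (a + q * j))).card ≤ 1

def TaskPolX : Prop := ∀ lam : ℕ, 1 ≤ lam → PolX (fl lam) (cl lam) 1 (1 - 4 * (lam : ℤ))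

def TaskCountIIX : Prop := ∀ (f : ℕ → ℤ) (c0 : ℕ) (e : ℝ) (Δ : ℤ), PolX f c0 e Δ →
  ∀ k : ℕ, 1 ≤ k → ∃ C : ℝ, 1 ≤ C ∧ ∀ z X : ℕ, 3 ≤ z →
    C * Real.log z * (1 + Real.log (Real.log z)) ≤ Real.log X →
    ∀ ps : Finset ℕ, ps.card = k → (∀ p ∈ ps, p.Prime ∧ p ≤ z) →
      ({n : ℕ | 1 ≤ n ∧ n ≤ X ∧ PassX f c0 n ∧ (∀ p ∈ ps, Ex c0 n p) ∧
        ∀ p : ℕ, Ex c0 n p → p ≤ ps.sup id → p ∈ ps}.ncard : ℝ) ≤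
      C * (X / ∏ p ∈ ps, (p : ℝ)) * (Real.log z) ^ (-1 + (1 / 2 : ℝ) ^ k : ℝ)

def TaskMainX : Prop := ∀ (f : ℕ → ℤ) (c0 : ℕ) (e : ℝ) (Δ : ℤ), PolX f c0 e Δ →
  ∀ ε : ℝ, 0 < ε → ∃ C : ℝ, 0 < C ∧ ∀ X : ℕ, 3 ≤ X →
    ({n : ℕ | 1 ≤ n ∧ n ≤ X ∧ PassX f c0 n}.ncard : ℝ) ≤ C * X * (Real.log X) ^ (ε - 1)

end Pool.Agent.H634R3.WG
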