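import Mathlib
import Pool.Agent.H634R3.WG.XStmts
import Pool.Agent.H951R4.OD.Design
import Pool.Agent.H634R3.PPC.Solv2

set_option autoImplicit false

/-!
# Symmetric designs with a solvable point-transitive automorphism group
-/

namespace Pool.Agent.H634R3.WG.Lam

open Finset Pool.Agent.H634R3.PPC Pool.Agent.H951R4.OD MulAction

/-- the blocks `B i` form a symmetric design; `H` is a solvable group of automorphisms which is
transitive on the points -/
structure TransDesign (v k lam : ℕ) (B : Fin v → Finset (Fin v))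
    (H : Subgroup (Equiv.Perm (Fin v))) : Prop where
  kv : k < v
  size : ∀ i, (B i).card = k
  pair : ∀ x y : Fin v, x ≠ y →
    (Finset.univ.filter (fun i => x ∈ B i ∧ y ∈ B i)).card = lam
  trans : ∀ x y : Fin v, ∃ h ∈ H, h x = y
  aut : ∀ h ∈ H, ∀ i, ∃ j, (B i).image h = B j
  solv : Group.IsSolvable H

/-- Schützenberger's theorem for symmetric designs -/
theorem schutz_design {v k lam : ℕ} {B : Fin v → Finset (Fin v)} (hv : 2 ≤ v) (hlam : 1 ≤ lam)
    (hkv : k < v) (hk : ∀ i, (B i).card = k)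
    (hp : ∀ x y : Fin v, x ≠ y →
      (Finset.univ.filter (fun i => x ∈ B i ∧ y ∈ B i)).card = lam) (heven : Even v) :
    IsSquare (k - lam) := by
  obtain ⟨hlk, -, -⟩ := design_facts hv hlam hkv hk hp
  obtain ⟨-, hcount⟩ := repl v k lam hv hlam B hk hp
  have hT := inc_tmul hv hlam hk hp
  obtain ⟨n, hn⟩ : ∃ n, k = n + lam := ⟨k - lam, by omega⟩
  have hn1 : 1 ≤ n := by omega
  have hkn : k - lam = n := by omega
  rw [hkn]
  have hn0 : (n : ℚ) ≠ 0 := by
    have : n ≠ 0 := by omega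
    exact_mod_cast this
  have hdet : ((k : ℚ) - lam) ^ (v - 1) * (k : ℚ) ^ 2 = (inc B).det * (inc B).det := by
    have h1 := congrArg Matrix.det hT
    rw [Matrix.det_mul, Matrix.det_transpose] at h1
    rw [h1]
    have hkl : ((k : ℚ) - lam) = n := by rw [hn]; push_cast; ring
    rw [hkl]
    have h3 : ((n : ℚ) • (1 : Matrix (Fin v) (Fin v) ℚ) +
        (lam : ℚ) • (Matrix.of fun _ _ => (1 : ℚ))) =
        (n : ℚ) • ((1 : Matrix (Fin v) (Fin v) ℚ) +
        Matrix.replicateCol Unit (fun _ => ((lam : ℚ) / n)) *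
          Matrix.replicateRow Unit (fun _ => (1 : ℚ))) := by
      ext i j
      simp only [Matrix.add_apply, Matrix.smul_apply, smul_eq_mul, Matrix.mul_apply,
        Matrix.replicateCol_apply, Matrix.replicateRow_apply, Finset.univ_unique, Finset.sum_const,
        Finset.card_singleton, one_smul, mul_one, Matrix.of_apply]
      field_simp
    rw [h3, Matrix.det_smul, Matrix.det_one_add_replicateCol_mul_replicateRow]
    have h4 : (fun _ : Fin v => (1 : ℚ)) ⬝ᵥ (fun _ => ((lam : ℚ) / n)) = v * (lam / n) := by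
      simp [dotProduct]
    rw [h4, Fintype.card_fin]
    have h5 : (k : ℚ) ^ 2 = lam * v + n := by
      have h6 : (k : ℚ) * k = lam * (((v - 1 : ℕ) : ℚ)) + k := by exact_mod_cast hcount
      rw [Nat.cast_sub (by omega)] at h6
      have h7 : (k : ℚ) = n + lam := by exact_mod_cast hn
      push_cast at h6
      nlinarith
    have h6 : (n : ℚ) ^ v = (n : ℚ) ^ (v - 1) * n := by
      rw [← pow_succ]
      congr 1
      omega
    rw [h5, h6]
    field_simp
    ring
  obtain ⟨s, hs⟩ := heven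
  have hkl : ((k : ℚ) - lam) = n := by rw [hn]; push_cast; ring
  rw [hkl] at hdet
  have hk0 : (k : ℚ) ≠ 0 := by
    have : k ≠ 0 := by omega
    exact_mod_cast this
  have hv1 : v - 1 = 2 * (s - 1) + 1 := by omega
  rw [hv1] at hdet
  have hsq : IsSquare (n : ℚ) := by
    refine ⟨(inc B).det / ((n : ℚ) ^ (s - 1) * k), ?_⟩
    field_simp
    have h8 : (n : ℚ) ^ (2 * (s - 1) + 1) = n * ((n : ℚ) ^ (s - 1)) ^ 2 := by ring
    rw [h8] at hdet
    nlinarith [hdet]
  exact Rat.isSquare_natCast_iff.1 hsq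

theorem des_of {v k lam : ℕ} {B : Fin v → Finset (Fin v)} (hv : 2 ≤ v) (hlam : 1 ≤ lam)
    (hkv : k < v) (hk : ∀ i, (B i).card = k)
    (hp : ∀ x y : Fin v, x ≠ y →
      (Finset.univ.filter (fun i => x ∈ B i ∧ y ∈ B i)).card = lam) :
    Des (fun (x : Fin v) (i : Fin v) => x ∈ B i) (k - lam) lam := by
  classical
  obtain ⟨hlk, -, hint⟩ := design_facts hv hlam hkv hk hp
  obtain ⟨hr, -⟩ := repl v k lam hv hlam B hk hp
  refine ⟨?_, ?_, rfl, by omega⟩
  · intro x z
    by_cases hxz : x = z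
    · subst hxz
      rw [if_pos rfl, Nat.sub_add_cancel hlk.le, ← hr x]
      congr 1
      ext i
      simp
    · rw [if_neg hxz, zero_add, ← hp x z hxz]
      congr 1
      ext i
      simp
  · intro i j
    by_cases hij : i = j
    · subst hij
      rw [if_pos rfl, Nat.sub_add_cancel hlk.le, ← hk i]
      congr 1
      ext x
      simp
    · rw [if_neg hij, zero_add, ← hint i j hij]
      congr 1
      ext x
      simp

/-- the blocks -/
structure Blk (v : ℕ) where
  i : Fin v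

/-- the blocks are the elements of `Fin v` -/
def blkEquiv (v : ℕ) : Blk v ≃ Fin v where
  toFun b := b.i
  invFun i := ⟨i⟩
  left_inv _ := rfl
  right_inv _ := rfl

instance (v : ℕ) : Fintype (Blk v) := Fintype.ofEquiv (Fin v) (blkEquiv v).symm

theorem des_blk {v k lam : ℕ} {B : Fin v → Finset (Fin v)} (hv : 2 ≤ v) (hlam : 1 ≤ lam)
    (hkv : k < v) (hk : ∀ i, (B i).card = k)
    (hp : ∀ x y : Fin v, x ≠ y →
      (Finset.univ.filter (fun i => x ∈ B i ∧ y ∈ B i)).card = lam) :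
    Des (fun (x : Fin v) (b : Blk v) => x ∈ B b.i) (k - lam) lam := by
  classical
  have h := des_of hv hlam hkv hk hp
  refine ⟨?_, ?_, ?_, h.npos⟩
  · intro x z
    rw [← h.row x z]
    refine Finset.card_bij (fun b _ => b.i) ?_ ?_ ?_
    · intro b hb
      simpa using hb
    · rintro ⟨a⟩ _ ⟨b⟩ _ h1
      exact congrArg _ h1
    · intro b hb
      exact ⟨⟨b⟩, by simpa using hb, rfl⟩
  · rintro ⟨i⟩ ⟨j⟩
    rw [h.col i j]
    congr 1
    by_cases hij : i = j
    · subst hij
      rw [if_pos rfl, if_pos rfl]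
    · rw [if_neg hij, if_neg (fun h => hij (congrArg Blk.i h))]
  · exact (Fintype.card_congr (blkEquiv v)).symm

/-- the pairs of permutations (of points and of blocks) -/
def pairs {v : ℕ} (B : Fin v → Finset (Fin v)) (H : Subgroup (Equiv.Perm (Fin v))) :
    Subgroup (Equiv.Perm (Fin v) × Equiv.Perm (Fin v)) where
  carrier := {g | g.1 ∈ H ∧ ∀ x i, g.1 x ∈ B (g.2 i) ↔ x ∈ B i}
  mul_mem' := by
    rintro a b ⟨ha1, ha2⟩ ⟨hb1, hb2⟩
    refine ⟨H.mul_mem ha1 hb1, fun x i => ?_⟩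
    show a.1 (b.1 x) ∈ B (a.2 (b.2 i)) ↔ _
    rw [ha2, hb2]
  one_mem' := ⟨H.one_mem, fun x i => Iff.rfl⟩
  inv_mem' := by
    rintro a ⟨ha1, ha2⟩
    refine ⟨H.inv_mem ha1, fun x i => ?_⟩
    show a.1⁻¹ x ∈ B (a.2⁻¹ i) ↔ _
    rw [← ha2, Equiv.Perm.inv_def, Equiv.Perm.inv_def, Equiv.apply_symm_apply,
      Equiv.apply_symm_apply]

instance actP {v : ℕ} (B : Fin v → Finset (Fin v)) (H : Subgroup (Equiv.Perm (Fin v))) :
    MulAction (pairs B H) (Fin v) where
  smul g x := g.1.1 x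
  one_smul _ := rfl
  mul_smul _ _ _ := rfl

instance actB {v : ℕ} (B : Fin v → Finset (Fin v)) (H : Subgroup (Equiv.Perm (Fin v))) :
    MulAction (pairs B H) (Blk v) where
  smul g x := ⟨g.1.2 x.i⟩
  one_smul _ := rfl
  mul_smul _ _ _ := rfl

theorem blocks_inj {v k lam : ℕ} {B : Fin v → Finset (Fin v)} (hv : 2 ≤ v) (hlam : 1 ≤ lam)
    (hkv : k < v) (hk : ∀ i, (B i).card = k)
    (hp : ∀ x y : Fin v, x ≠ y →
      (Finset.univ.filter (fun i => x ∈ B i ∧ y ∈ B i)).card = lam) : Function.Injective B := by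
  obtain ⟨hlk, -, hint⟩ := design_facts hv hlam hkv hk hp
  intro i j hij
  by_contra hne
  have h1 := hint i j hne
  rw [← hij, Finset.inter_self, hk i] at h1
  omega

theorem pass_odd {v k lam : ℕ} {B : Fin v → Finset (Fin v)} {H : Subgroup (Equiv.Perm (Fin v))}
    (h : TransDesign v k lam B H) (hv : 2 ≤ v) (hlam : 1 ≤ lam) (hodd : Odd v) :
    PassX (fl lam) (cl lam) (k - lam) := by
  classical
  intro r q hr hq hqc hqf hqf2 hch
  obtain ⟨hrp, -, hrn, hrn2⟩ := hr
  obtain ⟨hlk, -, -⟩ := design_facts hv hlam h.kv h.size h.pair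
  obtain ⟨-, hcount⟩ := repl v k lam hv hlam B h.size h.pair
  have hinj := blocks_inj hv hlam h.kv h.size h.pair
  have hq2 : q ≠ 2 := by
    rintro rfl
    exact hqc (by unfold cl; exact dvd_mul_of_dvd_left (dvd_mul_right 2 lam) _)
  have hq3 : 2 < q := lt_of_le_of_ne hq.two_le (Ne.symm hq2)
  have hql : ¬ q ∣ lam := fun h1 => hqc (by
    unfold cl
    exact dvd_mul_of_dvd_left (dvd_mul_of_dvd_right h1 2) _)
  have hfl : fl lam (k - lam) = ((lam * v : ℕ) : ℤ) := by
    unfold fl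
    have h1 : (k : ℤ) * k = lam * ((v - 1 : ℕ) : ℤ) + k := by exact_mod_cast hcount
    rw [Nat.cast_sub (by omega)] at h1
    rw [Nat.cast_sub hlk.le]
    push_cast at h1 ⊢
    nlinarith
  rw [hfl] at hqf hqf2
  have hqv : q ∣ v := by
    have h1 : q ∣ lam * v := by exact_mod_cast hqf
    exact ((Nat.Prime.dvd_mul hq).1 h1).resolve_left hql
  have hqv2 : ¬ q ^ 2 ∣ v := fun h1 => hqf2 (by
    have : q ^ 2 ∣ lam * v := dvd_mul_of_dvd_right h1 _
    exact_mod_cast this)
  have : Fintype (pairs B H) := Fintype.ofFinite _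
  have hmem : ∀ g : pairs B H, g.1.1 ∈ H := fun g => g.2.1
  have hsolv : Group.IsSolvable (pairs B H) := by
    have := h.solv
    let φ : pairs B H →* H :=
      { toFun := fun g => ⟨g.1.1, g.2.1⟩
        map_one' := rfl
        map_mul' := fun a b => rfl }
    have hφ : Function.Injective φ := by
      intro a b hab
      have h1 : a.1.1 = b.1.1 := congrArg Subtype.val hab
      apply Subtype.ext
      refine Prod.ext h1 ?_
      ext1 i
      apply hinj
      ext x
      have h2 := a.2.2 (a.1.1.symm x) i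
      have h3 := b.2.2 (b.1.1.symm x) i
      rw [Equiv.apply_symm_apply] at h2 h3
      rw [h2, h3, h1]
    exact Group.isSolvable_of_isSolvable_injective hφ
  obtain ⟨u, hu⟩ := hrn
  refine solv_test hsolv (des_blk hv hlam h.kv h.size h.pair) ?_ ?_ hq hq3 ?_ ?_ ?_ hrp
    (j := (q - 1) / 2) ?_ odd_one (u := u) ?_ (by rw [pow_one]; exact hu)
  · intro g p b
    exact g.2.2 p b.i
  · intro x y
    obtain ⟨g, hg, hgx⟩ := h.trans x y
    choose τ hτ using h.aut g hg
    have hτi : Function.Injective τ := by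
      intro i j hij
      apply hinj
      have h1 := hτ i
      rw [hij, ← hτ j] at h1
      exact Finset.image_injective g.injective h1
    refine ⟨⟨(g, Equiv.ofBijective τ (Finite.injective_iff_bijective.1 hτi)), hg, ?_⟩, hgx⟩
    intro z i
    show g z ∈ B (τ i) ↔ z ∈ B i
    rw [← hτ i, Finset.mem_image]
    constructor
    · rintro ⟨w, hw, hwz⟩
      rwa [← g.injective hwz]
    · intro hz
      exact ⟨z, hz, rfl⟩
  · rw [Fintype.card_fin]
    exact hqv
  · rw [Fintype.card_fin]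
    exact hqv2
  · rw [Fintype.card_fin]
    exact hodd
  · exact (ch_eq_neg_one_iff r q hq hq2).1 hch
  · rintro ⟨w, rfl⟩
    apply hrn2
    rw [hu]
    exact ⟨w, by ring⟩

theorem pass_sq {f : ℕ → ℤ} {c0 n : ℕ} (h : IsSquare n) : PassX f c0 n := by
  intro r q hr
  exfalso
  obtain ⟨hrp, -, hrn, hrn2⟩ := hr
  obtain ⟨m, rfl⟩ := h
  have h1 : r ∣ m := by
    rcases (Nat.Prime.dvd_mul hrp).1 hrn with h | h <;> exact h
  apply hrn2
  rw [pow_two]
  exact mul_dvd_mul h1 h1

theorem pass_all {v k lam : ℕ} {B : Fin v → Finset (Fin v)} {H : Subgroup (Equiv.Perm (Fin v))}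
    (h : TransDesign v k lam B H) (hv : 2 ≤ v) (hlam : 1 ≤ lam) :
    PassX (fl lam) (cl lam) (k - lam) := by
  rcases Nat.even_or_odd v with he | ho
  · exact pass_sq (schutz_design hv hlam h.kv h.size h.pair he)
  · exact pass_odd h hv hlam ho

theorem count_lam (hP : TaskPolX) (hX : TaskMainX) (lam : ℕ) (hl : 1 ≤ lam) (ε : ℝ) (hε : 0 < ε) :
    ∃ C : ℝ, 0 < C ∧ ∀ X : ℕ, 3 ≤ X →
      ({k : ℕ | k ≤ X ∧ ∃ (v : ℕ) (B : Fin v → Finset (Fin v))
        (H : Subgroup (Equiv.Perm (Fin v))), 2 ≤ k ∧ TransDesign v k lam B H}.ncard : ℝ) ≤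
      C * X * (Real.log X) ^ (ε - 1) := by
  obtain ⟨C, hC, H⟩ := hX _ _ _ _ (hP lam hl) ε hε
  refine ⟨C, hC, fun X hX => le_trans ?_ (H X hX)⟩
  have hfin : {n : ℕ | 1 ≤ n ∧ n ≤ X ∧ PassX (fl lam) (cl lam) n}.Finite :=
    (Set.finite_Iic X).subset fun n hn => hn.2.1
  have key : ∀ k : ℕ, (∃ (v : ℕ) (B : Fin v → Finset (Fin v))
      (H : Subgroup (Equiv.Perm (Fin v))), 2 ≤ k ∧ TransDesign v k lam B H) →
      lam < k ∧ PassX (fl lam) (cl lam) (k - lam) := by
    rintro k ⟨v, B, H, hk2, hd⟩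
    have hv : 2 ≤ v := by
      have := hd.kv
      omega
    exact ⟨(design_facts hv hl hd.kv hd.size hd.pair).1, pass_all hd hv hl⟩
  have h1 := Set.ncard_le_ncard_of_injOn (s := {k : ℕ | k ≤ X ∧ ∃ (v : ℕ)
      (B : Fin v → Finset (Fin v)) (H : Subgroup (Equiv.Perm (Fin v))), 2 ≤ k ∧
      TransDesign v k lam B H}) (t := {n : ℕ | 1 ≤ n ∧ n ≤ X ∧ PassX (fl lam) (cl lam) n})
    (fun k => k - lam)
    (fun k hk => by
      obtain ⟨hkX, hk2⟩ := hk
      obtain ⟨h1, h2⟩ := key k hk2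
      exact ⟨by omega, by omega, h2⟩)
    (fun a ha b hb hab => by
      obtain ⟨h1, -⟩ := key a ha.2
      obtain ⟨h2, -⟩ := key b hb.2
      simp only at hab
      omega) hfin
  exact_mod_cast h1

end Pool.Agent.H634R3.WG.Lam
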