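import Mathlib
import Pool.Agent.H634R3.WG.Lam

set_option autoImplicit false

/-!
# Hadamard designs with a solvable point-transitive group
-/

namespace Pool.Agent.H634R3.WG.Lam

open Finset Pool.Agent.H634R3.PPC Pool.Agent.H951R4.OD MulAction

theorem test_trans {v k lam : ℕ} {B : Fin v → Finset (Fin v)} {H : Subgroup (Equiv.Perm (Fin v))}
    (h : TransDesign v k lam B H) (hv : 2 ≤ v) (hlam : 1 ≤ lam) (hodd : Odd v) {r q : ℕ}
    (hrp : r.Prime) (hq : q.Prime) (hq2 : q ≠ 2) (hqv : q ∣ v) (hqv2 : ¬ q ^ 2 ∣ v)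
    (hrn : r ∣ k - lam) (hrn2 : ¬ r ^ 2 ∣ k - lam) (hch : ch r q = -1) : False := by
  classical
  have hinj := blocks_inj hv hlam h.kv h.size h.pair
  have hq3 : 2 < q := lt_of_le_of_ne hq.two_le (Ne.symm hq2)
  have : Fintype (pairs B H) := Fintype.ofFinite _
  have hmem : ∀ g : pairs B H, g.1.1 ∈ H := fun g => g.2.1
  have hsolv : Group.IsSolvable (pairs B H) := by
    have := h.solv
    let φ : pairs B H →* H :=
      { toFun := fun g => ⟨g.1.1, g.2.1⟩
        map_one' := rfl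
        map_mul' := fun a b => rfl }
    have hφ : Function.Injective φ := by
      intro a b hab
      have h1 : a.1.1 = b.1.1 := congrArg Subtype.val hab
      apply Subtype.ext
      refine Prod.ext h1 ?_
      ext1 i
      apply hinj
      ext x
      have h2 := a.2.2 (a.1.1.symm x) i
      have h3 := b.2.2 (b.1.1.symm x) i
      rw [Equiv.apply_symm_apply] at h2 h3
      rw [h2, h3, h1]
    exact Group.isSolvable_of_isSolvable_injective hφ
  obtain ⟨u, hu⟩ := hrn
  refine solv_test hsolv (des_blk hv hlam h.kv h.size h.pair) ?_ ?_ hq hq3 ?_ ?_ ?_ hrp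
    (j := (q - 1) / 2) ?_ odd_one (u := u) ?_ (by rw [pow_one]; exact hu)
  · intro g p b
    exact g.2.2 p b.i
  · intro x y
    obtain ⟨g, hg, hgx⟩ := h.trans x y
    choose τ hτ using h.aut g hg
    have hτi : Function.Injective τ := by
      intro i j hij
      apply hinj
      have h1 := hτ i
      rw [hij, ← hτ j] at h1
      exact Finset.image_injective g.injective h1
    refine ⟨⟨(g, Equiv.ofBijective τ (Finite.injective_iff_bijective.1 hτi)), hg, ?_⟩, hgx⟩
    intro z i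
    show g z ∈ B (τ i) ↔ z ∈ B i
    rw [← hτ i, Finset.mem_image]
    constructor
    · rintro ⟨w, hw, hwz⟩
      rwa [← g.injective hwz]
    · intro hz
      exact ⟨z, hz, rfl⟩
  · rw [Fintype.card_fin]
    exact hqv
  · rw [Fintype.card_fin]
    exact hqv2
  · rw [Fintype.card_fin]
    exact hodd
  · exact (ch_eq_neg_one_iff r q hq hq2).1 hch
  · rintro ⟨w, rfl⟩
    apply hrn2
    rw [hu]
    exact ⟨w, by ring⟩

theorem polX_had : PolX (fun n => 4 * (n : ℤ) - 1) 2 0 (-1) where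
  toPol := pol_had
  lift := by
    intro q hq hqc a _
    rw [Finset.card_le_one]
    intro j hj j' hj'
    rw [Finset.mem_filter, Finset.mem_range] at hj hj'
    obtain ⟨h1, h2⟩ := hj
    obtain ⟨h3, h4⟩ := hj'
    have h5 := dvd_sub h2 h4
    have h6 : (4 * ((a + q * j : ℕ) : ℤ) - 1) - (4 * ((a + q * j' : ℕ) : ℤ) - 1) =
        q * (4 * ((j : ℤ) - j')) := by
      push_cast
      ring
    rw [h6, pow_two] at h5
    have hq0 : (q : ℤ) ≠ 0 := by exact_mod_cast hq.ne_zero
    have h7 : (q : ℤ) ∣ 4 * ((j : ℤ) - j') := (mul_dvd_mul_iff_left hq0).1 h5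
    have hcop : IsCoprime (q : ℤ) 4 := by
      have h8 : Nat.Coprime q 4 := by
        have h9 : Nat.Coprime q 2 := (Nat.Prime.coprime_iff_not_dvd hq).2 hqc
        exact Nat.Coprime.mul_right h9 h9
      exact_mod_cast Nat.isCoprime_iff_coprime.2 h8
    have h8 : (q : ℤ) ∣ (j : ℤ) - j' := hcop.dvd_of_dvd_mul_left h7
    have h9 := Int.eq_zero_of_abs_lt_dvd h8 (by
      rw [abs_lt]
      constructor <;> omega)
    omega

/-- a Hadamard design of order `n` with a solvable point-transitive group -/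
def HasHadTrans (n : ℕ) : Prop :=
  2 ≤ n ∧ ∃ (B : Fin (4 * n - 1) → Finset (Fin (4 * n - 1)))
    (H : Subgroup (Equiv.Perm (Fin (4 * n - 1)))), TransDesign (4 * n - 1) (2 * n - 1) (n - 1) B H

theorem pass_had {n : ℕ} (h : HasHadTrans n) : PassX (fun n => 4 * (n : ℤ) - 1) 2 n := by
  intro r q hr hq hqc hqf hqf2 hch
  obtain ⟨hrp, -, hrn, hrn2⟩ := hr
  obtain ⟨hn2, B, H, hT⟩ := h
  have hq2 : q ≠ 2 := by
    rintro rfl
    exact hqc (dvd_refl 2)
  have hc : (4 * (n : ℤ) - 1) = ((4 * n - 1 : ℕ) : ℤ) := by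
    rw [Nat.cast_sub (by omega)]
    push_cast
    ring
  simp only [hc] at hqf hqf2
  have hord : 2 * n - 1 - (n - 1) = n := by omega
  refine test_trans hT (by omega) (by omega) ?_ hrp hq hq2 (by exact_mod_cast hqf)
    (fun h1 => hqf2 (by exact_mod_cast h1)) (by rw [hord]; exact hrn) (by rw [hord]; exact hrn2)
    hch
  exact ⟨2 * n - 1, by omega⟩

theorem count_had (hX : TaskMainX) (ε : ℝ) (hε : 0 < ε) :
    ∃ C : ℝ, 0 < C ∧ ∀ X : ℕ, 3 ≤ X →
      ({n : ℕ | n ≤ X ∧ HasHadTrans n}.ncard : ℝ) ≤ C * X * (Real.log X) ^ (ε - 1) := by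
  obtain ⟨C, hC, H⟩ := hX _ _ _ _ polX_had ε hε
  refine ⟨C, hC, fun X hX3 => le_trans ?_ (H X hX3)⟩
  have hfin : {n : ℕ | 1 ≤ n ∧ n ≤ X ∧ PassX (fun n => 4 * (n : ℤ) - 1) 2 n}.Finite :=
    (Set.finite_Iic X).subset fun n hn => hn.2.1
  exact_mod_cast Set.ncard_le_ncard (fun n hn => by
    obtain ⟨h2, hs⟩ := hn
    exact ⟨by have := hs.1; omega, h2, pass_had hs⟩) hfin

end Pool.Agent.H634R3.WG.Lam
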