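import Mathlib
import Pool.Agent.H634R3.WG.Stmts

set_option autoImplicit false

/-!
# The main step for point-transitive planes
-/

namespace Pool.Agent.H634R3.WG.Main

open Configuration Configuration.ProjectivePlane Pool.Agent.H634R3.PPC

theorem taskLines : TaskLines := by
  classical
  intro G P L _ _ _ _ _ _ _ _ hC htr l m
  have : Fintype P := Fintype.ofFinite P
  have : Fintype L := Fintype.ofFinite L
  have : Fintype G := Fintype.ofFinite G
  have h := card_classes (plane_des (P := P) (L := L)) hC.inc (⊤ : Subgroup G)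
  have h1 : Fintype.card (MulAction.orbitRel.Quotient (⊤ : Subgroup G) P) ≤ 1 := by
    rw [Fintype.card_le_one_iff]
    intro α β
    obtain ⟨x, rfl⟩ := cls_surj (⊤ : Subgroup G) α
    obtain ⟨y, rfl⟩ := cls_surj (⊤ : Subgroup G) β
    rw [cls_eq]
    obtain ⟨g, hg⟩ := htr y x
    exact ⟨g, Subgroup.mem_top _, hg⟩
  rw [h, Fintype.card_le_one_iff] at h1
  have h2 := h1 (cls (⊤ : Subgroup G) m) (cls (⊤ : Subgroup G) l)
  rw [cls_eq] at h2
  obtain ⟨g, -, hg⟩ := h2
  exact ⟨g, hg⟩

section

variable {G P L : Type} [Group G] [Membership P L] [MulAction G P] [MulAction G L]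

theorem Persp.conj (hC : Col G P L) {g : G} {c : P} {l : L} (h : Persp g c l) (k : G) :
    Persp (k * g * k⁻¹) (k • c) (k • l) where
  ax := fun p hp => by
    have h1 : k⁻¹ • p ∈ l := by
      rw [← hC.inc k, smul_inv_smul]
      exact hp
    rw [mul_smul, mul_smul, h.ax _ h1, smul_inv_smul]
  ce := fun m hm => by
    have h1 : c ∈ k⁻¹ • m := by
      rw [← hC.inc k, smul_inv_smul]
      exact hm
    rw [mul_smul, mul_smul, h.ce _ h1, smul_inv_smul]

theorem Persp.pow {g : G} {c : P} {l : L} (h : Persp g c l) (k : ℕ) :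
    Persp (g ^ k) c l := by
  induction k with
  | zero => exact ⟨fun p _ => by rw [pow_zero, one_smul], fun m _ => by rw [pow_zero, one_smul]⟩
  | succ k ih =>
    exact ⟨fun p hp => by rw [pow_succ, mul_smul, h.ax p hp, ih.ax p hp],
      fun m hm => by rw [pow_succ, mul_smul, h.ce m hm, ih.ce m hm]⟩

end

/-- an elation gives a prime power -/
theorem of_elation (hFl : TaskFlag) (hCt : TaskCount) (hPP : TaskPP)
    {G P L : Type} [Group G] [Finite G] [Finite P] [Finite L] [Membership P L]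
    [ProjectivePlane P L] [MulAction G P] [MulAction G L] (hC : Col G P L)
    (htr : ∀ x y : P, ∃ g : G, g • x = y) {e : G} {c : P} {l : L} (he : e ≠ 1) (hc : c ∈ l)
    (hp : Persp e c l) : IsPrimePow (order P L) := by
  classical
  obtain ⟨p, hpr, hpd⟩ := Nat.exists_prime_and_dvd (fun h => he (orderOf_eq_one_iff.1 h))
  obtain ⟨k, hk⟩ := hpd
  have hk0 : k ≠ 0 := by
    rintro rfl
    rw [mul_zero] at hk
    exact (orderOf_pos e).ne' hk
  have he1 : e ^ k ≠ 1 := by
    intro h
    have h1 := Nat.le_of_dvd (Nat.pos_of_ne_zero hk0) (orderOf_dvd_of_pow_eq_one h)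
    rw [hk] at h1
    have := hpr.two_le
    have : 2 * k ≤ p * k := Nat.mul_le_mul_right _ this
    omega
  have he2 : (e ^ k) ^ p = 1 := by
    rw [← pow_mul, mul_comm, ← hk, pow_orderOf_eq_one]
  have hek := Persp.pow hp k
  have hflag := hFl G P L hC htr (taskLines G P L hC htr) p (e ^ k) c l hpr he1 he2 hc hek
  have hconst : ∀ c' : P, c' ∈ l → Nat.card {g : G // Persp g c' l} =
      Nat.card {g : G // Persp g c l} := by
    intro c' hc'
    obtain ⟨g, hg1, hg2⟩ := hflag c' c l l hc' hc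
    refine Nat.card_congr ⟨fun a => ⟨g * a.1 * g⁻¹, ?_⟩, fun a => ⟨g⁻¹ * a.1 * g, ?_⟩, ?_, ?_⟩
    · have := Persp.conj hC a.2 g
      rwa [hg1, hg2] at this
    · have := Persp.conj hC a.2 g⁻¹
      rwa [inv_inv, inv_smul_eq_iff.2 hg1.symm, inv_smul_eq_iff.2 hg2.symm] at this
    · intro a
      apply Subtype.ext
      simp only
      group
    · intro a
      apply Subtype.ext
      simp only
      group
  have h2 : 2 ≤ Nat.card {g : G // Persp g c l} := by
    have : Finite {g : G // Persp g c l} := inferInstance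
    have hne : Nontrivial {g : G // Persp g c l} :=
      ⟨⟨1, by have := Persp.pow hp 0; rwa [pow_zero] at this⟩, ⟨e, hp⟩, fun h => he
        (congrArg Subtype.val h).symm⟩
    exact Finite.one_lt_card
  have hord := hCt G P L hC l _ h2 hconst
  refine hPP G P L hC l p hpr (fun c' hc' => (hconst c' hc').trans hord) ?_
  intro c' hc'
  obtain ⟨g, hg1, hg2⟩ := hflag c c' l l hc hc'
  refine ⟨g * e ^ k * g⁻¹, ?_, ?_, ?_⟩
  · intro h
    apply he1
    have h3 : e ^ k = g⁻¹ * (g * e ^ k * g⁻¹) * g := by group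
    rw [h3, h]
    group
  · rw [conj_pow, he2]
    group
  · have := Persp.conj hC hek g
    rwa [hg1, hg2] at this

theorem taskMain (hF : TaskFix) (hA : TaskAxis) (hB : TaskBaer) (hPr : TaskProd)
    (hPd : TaskProdDual) (hPo : TaskPolarity) (hFl : TaskFlag) (hCt : TaskCount) (hPP : TaskPP) :
    TaskMain := by
  classical
  intro G P L _ _ _ _ _ _ _ _ hC htr s hs1 hs
  rcases hB G P L hC s hs with hsq | ⟨l₀, hl₀⟩
  · exact Or.inl hsq
  right
  by_contra hcon
  have hno : ∀ (e : G) (c : P) (l : L), e ≠ 1 → Persp e c l → c ∉ l := fun e c l he hp hc =>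
    hcon (of_elation hFl hCt hPP hC htr he hc hp)
  obtain ⟨c₀, hc₀⟩ := hA G P L hC s l₀ hl₀
  have hex : ∀ x : P, ∃ (m : L) (t : G), t ≠ 1 ∧ t * t = 1 ∧ Persp t x m := by
    intro x
    obtain ⟨g, hg⟩ := htr c₀ x
    refine ⟨g • l₀, g * s * g⁻¹, ?_, ?_, ?_⟩
    · intro h
      apply hs1
      have h3 : s = g⁻¹ * (g * s * g⁻¹) * g := by group
      rw [h3, h]
      group
    · have : g * s * g⁻¹ * (g * s * g⁻¹) = g * (s * s) * g⁻¹ := by group
      rw [this, hs]
      group
    · have := Persp.conj hC hc₀ g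
      rwa [hg] at this
  choose f t ht1 ht hp using hex
  have huniq : ∀ (x : P) (m : L) (u : G), u ≠ 1 → u * u = 1 → Persp u x m → m = f x := by
    intro x m u hu1 hu hum
    by_contra hne
    obtain ⟨h1, k, hk, h2⟩ := hPd G P L hC u (t x) x m (f x) hu1 (ht1 x) hu (ht x) hum (hp x)
      (hno u x m hu1 hum) (hno _ _ _ (ht1 x) (hp x)) hne
    exact hno _ _ _ h1 h2 hk
  have hinj : Function.Injective f := by
    intro x y hxy
    by_contra hne
    have h2 := hp y
    rw [← hxy] at h2
    obtain ⟨h1, e, he, h3⟩ := hPr G P L hC (t x) (t y) x y (f x) (ht1 x) (ht1 y) (ht x) (ht y)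
      (hp x) h2 (hno _ _ _ (ht1 x) (hp x)) (hno _ _ _ (ht1 y) h2) hne
    exact hno _ _ _ h1 h3 he
  have hsymm : ∀ x y : P, y ∈ f x → x ∈ f y := by
    intro x y hy
    have h1 : t x • y = y := (hp x).ax y hy
    have h2 := Persp.conj hC (hp y) (t x)
    rw [h1] at h2
    have h3 : t x • f y = f y := by
      refine huniq y _ (t x * t y * (t x)⁻¹) ?_ ?_ h2
      · intro h
        apply ht1 y
        have h3 : t y = (t x)⁻¹ * (t x * t y * (t x)⁻¹) * t x := by group
        rw [h3, h]
        group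
      · have : t x * t y * (t x)⁻¹ * (t x * t y * (t x)⁻¹) = t x * (t y * t y) * (t x)⁻¹ := by
          group
        rw [this, ht y]
        group
    rcases (hF G P L hC (t x) x (f x) (hp x) (ht1 x)).2.1 _ h3 with h4 | h4
    · exfalso
      have h5 := hinj h4
      subst h5
      exact hno _ _ _ (ht1 y) (hp y) hy
    · exact h4
  obtain ⟨x, hx⟩ := hPo P L f hinj (fun x y => ⟨hsymm x y, hsymm y x⟩)
  exact hno _ _ _ (ht1 x) (hp x) hx

end Pool.Agent.H634R3.WG.Main
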