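import Mathlib
import Pool.Agent.H634R3.WG.Stmts
import Pool.Agent.H634R3.PPC.Central

set_option autoImplicit false

/-! Task Axis (helper766): a collineation with an axis has a centre, and the dual. -/

namespace Pool.Agent.H634R3.WG.TaskAxis

open Configuration Configuration.ProjectivePlane

section

variable {G P L : Type} [Group G] [Membership P L] [ProjectivePlane P L] [MulAction G P]
  [MulAction G L]

theorem fl (inc : ∀ (g : G) (p : P) (l : L), g • p ∈ g • l ↔ p ∈ l) {g : G} {x y : P}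
    (hx : g • x = x) (hy : g • y = y) (hxy : x ≠ y) {l : L} (hxl : x ∈ l) (hyl : y ∈ l) :
    g • l = l := by
  have h1 : x ∈ g • l := by
    have := (inc g x l).2 hxl
    rwa [hx] at this
  have h2 : y ∈ g • l := by
    have := (inc g y l).2 hyl
    rwa [hy] at this
  exact (Nondegenerate.eq_or_eq h1 h2 hxl hyl).resolve_left hxy

theorem fp (inc : ∀ (g : G) (p : P) (l : L), g • p ∈ g • l ↔ p ∈ l) {g : G}
    {x : P} {l m : L} (hl : g • l = l) (hm : g • m = m) (hlm : l ≠ m) (hxl : x ∈ l)
    (hxm : x ∈ m) : g • x = x := by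
  have h1 : g • x ∈ l := by
    have := (inc g x l).2 hxl
    rwa [hl] at this
  have h2 : g • x ∈ m := by
    have := (inc g x m).2 hxm
    rwa [hm] at this
  exact (Nondegenerate.eq_or_eq h1 hxl h2 hxm).resolve_right hlm

theorem axis_aux [Finite P] [Finite L]
    (inc : ∀ (g : G) (p : P) (l : L), g • p ∈ g • l ↔ p ∈ l)
    (g : G) (l : L) (hfix : ∀ p : P, p ∈ l → g • p = p) :
    ∃ c : P, Persp g c l := by
  by_cases hA : ∃ c : P, c ∉ l ∧ g • c = c
  · obtain ⟨c, hcl, hc⟩ := hA
    refine ⟨c, hfix, ?_⟩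
    intro m hcm
    have hml : m ≠ l := fun e => hcl (e ▸ hcm)
    have hz := HasPoints.mkPoint_ax (P := P) hml
    have hcz : c ≠ HasPoints.mkPoint hml := fun e => hcl (by rw [e]; exact hz.2)
    exact fl inc hc (hfix _ hz.2) hcz hcm hz.1
  push Not at hA
  obtain ⟨p, hp⟩ := Nondegenerate.exists_point (P := P) (L := L) l
  -- the line `q, g q` is fixed and meets `l`
  have hgl : ∀ q : P, q ∉ l → g • q ∉ l := by
    intro q hq hgq
    apply hA q hq
    have h1 := hfix _ hgq
    exact smul_left_cancel g h1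
  have hline : ∀ q : P, q ∉ l → ∃ m : L, q ∈ m ∧ g • m = m := by
    intro q hq
    have hne : q ≠ g • q := fun e => hA q hq e.symm
    have hm := HasLines.mkLine_ax (L := L) hne
    set m : L := HasLines.mkLine hne with hmdef
    have hml : m ≠ l := fun e => hq (e ▸ hm.1)
    have hz := HasPoints.mkPoint_ax (P := P) hml
    set c : P := HasPoints.mkPoint hml with hc
    refine ⟨m, hm.1, ?_⟩
    have hc1 : g • c = c := hfix c hz.2
    have h1 : c ∈ g • m := by
      have := (inc g c m).2 hz.1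
      rwa [hc1] at this
    have h2 : g • q ∈ g • m := (inc g q m).2 hm.1
    have hcq : c ≠ g • q := fun e => hgl q hq (by rw [← e]; exact hz.2)
    exact (Nondegenerate.eq_or_eq h1 h2 hz.1 hm.2).resolve_left hcq
  obtain ⟨m, hpm, hmfix⟩ := hline p hp
  have hml : m ≠ l := fun e => hp (e ▸ hpm)
  have hc := HasPoints.mkPoint_ax (P := P) hml
  set c : P := HasPoints.mkPoint hml with hcdef
  have hthr : ∀ q : P, q ∉ l → ∃ k : L, q ∈ k ∧ c ∈ k ∧ g • k = k := by
    intro q hq
    obtain ⟨k, hqk, hkfix⟩ := hline q hq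
    by_cases hkm : k = m
    · exact ⟨k, hqk, by rw [hkm]; exact hc.1, hkfix⟩
    · have hz := HasPoints.mkPoint_ax (P := P) hkm
      set z : P := HasPoints.mkPoint hkm with hzdef
      have hzfix : g • z = z := fp inc hkfix hmfix hkm hz.1 hz.2
      have hzl : z ∈ l := by
        by_contra hcon
        exact hA z hcon hzfix
      have hzc : z = c := (Nondegenerate.eq_or_eq hz.2 hc.1 hzl hc.2).resolve_right hml
      exact ⟨k, hqk, by rw [← hzc]; exact hz.1, hkfix⟩
  refine ⟨c, hfix, ?_⟩
  intro k hck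
  by_cases hkl : k = l
  · rw [hkl]
    obtain ⟨x, hx, hxc, -⟩ := PPC.exists_ne_ne (P := P) l c c
    exact fl inc (hfix x hx) (hfix c hc.2) hxc hx hc.2
  · obtain ⟨q, hqk, hqc, -⟩ := PPC.exists_ne_ne (P := P) k c c
    have hql : q ∉ l := fun hql =>
      hkl ((Nondegenerate.eq_or_eq hqk hck hql hc.2).resolve_left hqc)
    obtain ⟨k', h1, h2, h3⟩ := hthr q hql
    have : k' = k := (Nondegenerate.eq_or_eq h1 h2 hqk hck).resolve_left hqc
    rw [← this]
    exact h3

end

theorem taskAxis : TaskAxis := by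
  intro G P L _ _ _ _ _ _ _ _ hcol g l hfix
  exact axis_aux hcol.inc g l hfix

theorem taskCentre : TaskCentre := by
  intro G P L _ _ _ _ _ _ _ _ hcol g c hfix
  let i1 : MulAction G (Dual L) := inferInstanceAs (MulAction G L)
  let i2 : MulAction G (Dual P) := inferInstanceAs (MulAction G P)
  have hinc : ∀ (g : G) (p : Dual L) (l : Dual P), g • p ∈ g • l ↔ p ∈ l :=
    fun g p l => hcol.inc g l p
  obtain ⟨l, hl⟩ := axis_aux (G := G) (P := Dual L) (L := Dual P) hinc g c hfix
  exact ⟨l, ⟨hl.ce, hl.ax⟩⟩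

end Pool.Agent.H634R3.WG.TaskAxis
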