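import Mathlib
import Pool.Agent.H634R3.WG.Stmts

set_option autoImplicit false

/-!
# Baer: a collineation of order two has an axis or the order of the plane is a square
-/

namespace Pool.Agent.H634R3.WG.TaskBaer

open Configuration Configuration.ProjectivePlane Finset Pool.Agent.H634R3.PPC

theorem taskBaer : TaskBaer := by
  classical
  intro G P L _ _ _ _ _ _ _ _ hcol s hs
  by_contra hcon
  rw [not_or] at hcon
  obtain ⟨hsq, hax⟩ := hcon
  push Not at hax
  have hFP := Fintype.ofFinite P
  have hFL := Fintype.ofFinite L
  have hssP : ∀ p : P, s • s • p = p := fun p => by rw [← mul_smul, hs, one_smul]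
  have hssL : ∀ l : L, s • s • l = l := fun l => by rw [← mul_smul, hs, one_smul]
  -- a line that is not fixed has exactly one fixed point
  have hA : ∀ l : L, s • l ≠ l → (univ.filter (fun x : P => s • x = x ∧ x ∈ l)).card = 1 := by
    intro l hl
    have h1 := card_common_points (P := P) l (s • l)
    rw [if_neg (Ne.symm hl), zero_add] at h1
    rw [← h1]
    congr 1
    ext x
    simp only [mem_filter, mem_univ, true_and]
    constructor
    · rintro ⟨h2, h3⟩
      refine ⟨h3, ?_⟩
      rw [← h2]
      exact (hcol.inc s x l).2 h3
    · rintro ⟨h2, h3⟩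
      refine ⟨?_, h2⟩
      have h4 : s • x ∈ s • l := (hcol.inc s x l).2 h2
      have h5 : s • x ∈ l := by
        have := (hcol.inc s x (s • l)).2 h3
        rwa [hssL] at this
      exact (Nondegenerate.eq_or_eq h5 h2 h4 h3).resolve_right (Ne.symm hl)
  -- a point that is not fixed is on exactly one fixed line
  have hB : ∀ p : P, s • p ≠ p → (univ.filter (fun l : L => s • l = l ∧ p ∈ l)).card = 1 := by
    intro p hp
    have h1 := card_common_lines (L := L) p (s • p)
    rw [if_neg (Ne.symm hp), zero_add] at h1
    rw [← h1]
    congr 1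
    ext l
    simp only [mem_filter, mem_univ, true_and]
    constructor
    · rintro ⟨h2, h3⟩
      refine ⟨h3, ?_⟩
      rw [← h2]
      exact (hcol.inc s p l).2 h3
    · rintro ⟨h2, h3⟩
      refine ⟨?_, h2⟩
      have h4 : s • p ∈ s • l := (hcol.inc s p l).2 h2
      have h5 : p ∈ s • l := by
        have := (hcol.inc s (s • p) l).2 h3
        rwa [hssP] at this
      exact (Nondegenerate.eq_or_eq h4 h5 h3 h2).resolve_left hp
  set n : ℕ := order P L with hn
  set f : ℕ := (univ.filter (fun x : P => s • x = x)).card with hf
  -- the number of fixed points of a fixed line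
  have hC : ∀ m : L, s • m = m →
      f = (univ.filter (fun x : P => s • x = x ∧ x ∈ m)).card + n := by
    intro m hm
    obtain ⟨p, hpm, hp⟩ := hax m
    have h1 : ∑ x ∈ univ.filter (fun x : P => s • x = x),
        (univ.filter (fun l : L => x ∈ l ∧ p ∈ l)).card = f := by
      rw [hf, Finset.card_eq_sum_ones]
      refine sum_congr rfl fun x hx => ?_
      rw [mem_filter] at hx
      rw [card_common_lines, if_neg, zero_add]
      rintro rfl
      exact hp hx.2
    have h2 : ∑ x ∈ univ.filter (fun x : P => s • x = x),
        (univ.filter (fun l : L => x ∈ l ∧ p ∈ l)).card =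
        ∑ l ∈ univ.filter (fun l : L => p ∈ l),
          (univ.filter (fun x : P => s • x = x ∧ x ∈ l)).card := by
      have e1 : ∀ x : P, (univ.filter (fun l : L => x ∈ l ∧ p ∈ l)).card =
          ∑ l ∈ univ.filter (fun l : L => p ∈ l), if x ∈ l then 1 else 0 := by
        intro x
        rw [← card_filter, filter_filter]
        congr 1
        ext l
        simp only [mem_filter, mem_univ, true_and]
        tauto
      have e2 : ∀ l : L, (univ.filter (fun x : P => s • x = x ∧ x ∈ l)).card =
          ∑ x ∈ univ.filter (fun x : P => s • x = x), if x ∈ l then 1 else 0 := by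
        intro l
        rw [← card_filter, filter_filter]
      simp only [e1, e2]
      rw [sum_comm]
    have hmem : m ∈ univ.filter (fun l : L => p ∈ l) := by simp [hpm]
    have h3 : ∑ l ∈ (univ.filter (fun l : L => p ∈ l)).erase m,
        (univ.filter (fun x : P => s • x = x ∧ x ∈ l)).card = n := by
      have h4 : ∀ l ∈ (univ.filter (fun l : L => p ∈ l)).erase m,
          (univ.filter (fun x : P => s • x = x ∧ x ∈ l)).card = 1 := by
        intro l hl
        rw [mem_erase, mem_filter] at hl
        apply hA
        intro hl'
        have h5 := Finset.card_eq_one.1 (hB p hp)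
        obtain ⟨k, hk⟩ := h5
        have h6 : m ∈ univ.filter (fun l : L => s • l = l ∧ p ∈ l) := by simp [hm, hpm]
        have h7 : l ∈ univ.filter (fun l : L => s • l = l ∧ p ∈ l) := by simp [hl', hl.2.2]
        rw [hk, mem_singleton] at h6 h7
        exact hl.1 (h7.trans h6.symm)
      rw [sum_congr rfl h4, ← Finset.card_eq_sum_ones, card_erase_of_mem hmem]
      have h8 := card_common_lines (L := L) p p
      rw [if_pos rfl] at h8
      simp only [and_self] at h8
      rw [h8]
      rfl
    rw [← h1, h2, ← add_sum_erase _ _ hmem, h3]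
  -- the number of moved points on a fixed line
  have hD : ∀ m : L, s • m = m →
      ((univ.filter (fun x : P => s • x ≠ x ∧ x ∈ m)).card : ℤ) = 2 * n + 1 - f := by
    intro m hm
    have h1 := card_common_points (P := P) m m
    rw [if_pos rfl] at h1
    simp only [and_self] at h1
    have h2 := hC m hm
    have h3 : (univ.filter (fun x : P => s • x = x ∧ x ∈ m)).card +
        (univ.filter (fun x : P => s • x ≠ x ∧ x ∈ m)).card =
        (univ.filter (fun x : P => x ∈ m)).card := by
      rw [← card_filter_add_card_filter_not (s := univ.filter (fun x : P => x ∈ m))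
        (fun x => s • x = x), filter_filter, filter_filter]
      congr 2 <;> · ext x; simp only [mem_filter, mem_univ, true_and]; tauto
    have h4 : (order P L : ℕ) = n := rfl
    omega
  -- double counting
  have hfixL : (univ.filter (fun l : L => s • l = l)).card = f := by
    have := card_fixed (P := P) (L := L) (MulAction.toPerm s) (MulAction.toPerm s)
      (fun p l => hcol.inc s p l)
    simp only [MulAction.toPerm_apply] at this
    rw [← this]
  have h1 : ∑ l ∈ univ.filter (fun l : L => s • l = l),
      (univ.filter (fun x : P => s • x ≠ x ∧ x ∈ l)).card =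
      (univ.filter (fun x : P => s • x ≠ x)).card := by
    have e1 : ∀ l : L, (univ.filter (fun x : P => s • x ≠ x ∧ x ∈ l)).card =
        ∑ x ∈ univ.filter (fun x : P => s • x ≠ x), if x ∈ l then 1 else 0 := by
      intro l
      rw [← card_filter, filter_filter]
    simp only [e1]
    rw [sum_comm, Finset.card_eq_sum_ones]
    refine sum_congr rfl fun x hx => ?_
    rw [mem_filter] at hx
    rw [← card_filter, filter_filter]
    exact hB x hx.2
  have h2 : (∑ l ∈ univ.filter (fun l : L => s • l = l),
      ((univ.filter (fun x : P => s • x ≠ x ∧ x ∈ l)).card : ℤ)) = f * (2 * n + 1 - f) := by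
    rw [sum_congr rfl (fun l hl => hD l (mem_filter.1 hl).2), sum_const, nsmul_eq_mul, hfixL]
  have h3 : f + (univ.filter (fun x : P => s • x ≠ x)).card = n ^ 2 + n + 1 := by
    rw [hf, hn, ← card_points P L]
    exact card_filter_add_card_filter_not _
  have h4 : ((n : ℤ) ^ 2 + n + 1) - f = f * (2 * n + 1 - f) := by
    rw [← h2]
    have h5 : ((∑ l ∈ univ.filter (fun l : L => s • l = l),
      (univ.filter (fun x : P => s • x ≠ x ∧ x ∈ l)).card : ℕ) : ℤ) =
      ((univ.filter (fun x : P => s • x ≠ x)).card : ℤ) := by rw [h1]
    push_cast at h5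
    rw [h5]
    have h6 : ((f : ℤ) + (univ.filter (fun x : P => s • x ≠ x)).card) = (n : ℤ) ^ 2 + n + 1 := by
      exact_mod_cast h3
    linarith
  have h5 : ((f : ℤ) - n - 1) * ((f : ℤ) - n - 1) = n := by linarith
  apply hsq
  refine ⟨((f : ℤ) - n - 1).natAbs, ?_⟩
  zify
  rw [abs_mul_abs_self]
  exact h5.symm

end Pool.Agent.H634R3.WG.TaskBaer
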