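import Pool.Agent.H634R3.WG.Stmts

set_option autoImplicit false
set_option linter.unusedSectionVars false

/-!
# The elation groups of an axis are transitive if they all have the same order
-/

namespace Pool.Agent.H634R3.WG.TaskCount

open Configuration Configuration.ProjectivePlane
open Pool.Agent.H634R3.WG

theorem arith (n h : ℕ) (hn : 0 < n) (h2 : 2 ≤ h) (hd : h ∣ n)
    (hE : (n + 1) * (h - 1) + 1 ∣ n ^ 2) : h = n := by
  obtain ⟨k, rfl⟩ := hd
  obtain ⟨j, rfl⟩ : ∃ j, h = j + 2 := ⟨h - 2, by omega⟩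
  have hk : 0 < k := Nat.pos_of_mul_pos_left hn |> fun _ => by
    rcases Nat.eq_zero_or_pos k with h0 | h0
    · subst h0; simp at hn
    · exact h0
  have e1 : ((j + 2) * k + 1) * (j + 2 - 1) + 1 = (j + 2) * (k * (j + 1) + 1) := by
    have : j + 2 - 1 = j + 1 := by omega
    rw [this]; ring
  rw [e1] at hE
  have e2 : ((j + 2) * k) ^ 2 = (j + 2) * ((j + 2) * (k * k)) := by ring
  rw [e2] at hE
  have h3 : k * (j + 1) + 1 ∣ (j + 2) * (k * k) := Nat.dvd_of_mul_dvd_mul_left (by omega) hE
  have hc : Nat.Coprime (k * (j + 1) + 1) k := by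
    have : Nat.Coprime (1 + k * (j + 1)) k := by
      simp
    rwa [add_comm] at this
  have h4 : k * (j + 1) + 1 ∣ j + 2 :=
    (Nat.Coprime.dvd_of_dvd_mul_right (Nat.Coprime.mul_right hc hc) h3)
  have h5 := Nat.le_of_dvd (by omega) h4
  have h6 : k ≤ 1 := by
    by_contra hcon
    push Not at hcon
    have : 2 * (j + 1) ≤ k * (j + 1) := Nat.mul_le_mul_right _ hcon
    omega
  have h7 : k = 1 := by omega
  rw [h7, mul_one]

section

variable {G X : Type} [Group G] [MulAction G X]

theorem semireg [Finite G] [Finite X] (H : Subgroup G) (S : Set X)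
    (hS : ∀ g ∈ H, ∀ x ∈ S, g • x ∈ S) (hfree : ∀ g ∈ H, ∀ x ∈ S, g • x = x → g = 1) :
    Nat.card H ∣ Nat.card S := by
  classical
  let S' : SubMulAction H X := { carrier := S, smul_mem' := fun g x hx => hS g g.2 x hx }
  have hfin : Finite S' := Subtype.finite
  have i1 : Fintype S' := Fintype.ofFinite _
  have i2 : Fintype H := Fintype.ofFinite _
  have i3 : Fintype (MulAction.orbitRel.Quotient H S') := Fintype.ofFinite _
  have key := MulAction.card_eq_sum_card_group_div_card_stabilizer H S'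
  have h1 : ∀ ω : MulAction.orbitRel.Quotient H S',
      Fintype.card H / Fintype.card (MulAction.stabilizer H (Quotient.out ω)) = Fintype.card H := by
    intro ω
    have h2 : MulAction.stabilizer H (Quotient.out ω) = ⊥ := by
      rw [eq_bot_iff]
      intro g hg
      rw [MulAction.mem_stabilizer_iff] at hg
      have h3 : (g : G) • ((Quotient.out ω : S') : X) = ((Quotient.out ω : S') : X) :=
        congrArg Subtype.val hg
      have h4 := hfree g g.2 _ (Quotient.out ω : S').2 h3
      rw [Subgroup.mem_bot]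
      exact Subtype.ext h4
    have h5 : Fintype.card (MulAction.stabilizer H (Quotient.out ω)) = 1 := by
      rw [← Nat.card_eq_fintype_card, h2]
      simp
    rw [h5, Nat.div_one]
  rw [Finset.sum_congr rfl (fun ω _ => h1 ω), Finset.sum_const, smul_eq_mul] at key
  have h6 : Nat.card S = Fintype.card S' := by
    rw [← Nat.card_eq_fintype_card]
    rfl
  rw [h6, key, Nat.card_eq_fintype_card]
  exact dvd_mul_left _ _

end

section

variable {G P L : Type} [Group G] [Membership P L] [MulAction G P] [MulAction G L]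

theorem persp_one (c : P) (l : L) : Persp (1 : G) c l :=
  ⟨fun p _ => one_smul _ p, fun m _ => one_smul _ m⟩

theorem persp_mul {g g' : G} {c : P} {l : L} (h : Persp g c l) (h' : Persp g' c l) :
    Persp (g * g') c l :=
  ⟨fun p hp => by rw [mul_smul, h'.ax p hp, h.ax p hp],
    fun m hm => by rw [mul_smul, h'.ce m hm, h.ce m hm]⟩

theorem persp_inv {g : G} {c : P} {l : L} (h : Persp g c l) : Persp g⁻¹ c l :=
  ⟨fun p hp => by rw [inv_smul_eq_iff, h.ax p hp], fun m hm => by rw [inv_smul_eq_iff, h.ce m hm]⟩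

/-- the group of elations with centre `c` -/
def Ec (G : Type) [Group G] [MulAction G P] [MulAction G L] (c : P) (l : L) : Subgroup G where
  carrier := {g | Persp g c l}
  mul_mem' := fun h h' => persp_mul h h'
  one_mem' := persp_one c l
  inv_mem' := fun h => persp_inv h

end

section

variable {G P L : Type} [Group G] [Finite G] [Finite P] [Finite L] [Membership P L]
  [ProjectivePlane P L] [MulAction G P] [MulAction G L]

theorem fix_mem (hF : TaskFix) (hG : Col G P L) {g : G} {c : P} {l : L} (hc : c ∈ l)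
    (h : Persp g c l) {z : P} (hz : z ∉ l) (hgz : g • z = z) : g = 1 := by
  by_contra hg
  rcases (hF G P L hG g c l h hg).1 z hgz with h1 | h1
  · exact hz (h1 ▸ hc)
  · exact hz h1

theorem two_centres (hF : TaskFix) (hG : Col G P L) {g : G} {c c' : P} {l : L} (hc : c ∈ l)
    (hc' : c' ∈ l) (hne : c ≠ c') (h : Persp g c l) (h' : Persp g c' l) : g = 1 := by
  by_contra hg
  obtain ⟨m, hm, hml⟩ : ∃ m : L, c' ∈ m ∧ m ≠ l := by
    obtain ⟨q, hq⟩ := Nondegenerate.exists_point (P := P) l
    have hqc : c' ≠ q := fun e => hq (e ▸ hc')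
    refine ⟨HasLines.mkLine hqc, (HasLines.mkLine_ax hqc).1, fun e => hq ?_⟩
    rw [← e]; exact (HasLines.mkLine_ax hqc).2
  rcases (hF G P L hG g c l h hg).2.1 m (h'.ce m hm) with h1 | h1
  · exact hml h1
  · exact hml ((Nondegenerate.eq_or_eq h1 hm hc hc').resolve_left hne)

theorem mul_mem (hF : TaskFix) (hA : TaskAxis) (hG : Col G P L) {g g' : G} {c c' : P} {l : L}
    (hc : c ∈ l) (hc' : c' ∈ l) (h : Persp g c l) (h' : Persp g' c' l) :
    ∃ e, e ∈ l ∧ Persp (g * g') e l := by
  by_cases hcc : c = c'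
  · subst hcc
    exact ⟨c, hc, persp_mul h h'⟩
  by_cases hg' : g' = 1
  · subst hg'
    exact ⟨c, hc, by rwa [mul_one]⟩
  obtain ⟨e, he⟩ := hA G P L hG (g * g') l (fun p hp => by rw [mul_smul, h'.ax p hp, h.ax p hp])
  by_cases hel : e ∈ l
  · exact ⟨e, hel, he⟩
  by_cases h1 : g * g' = 1
  · rw [h1]
    exact ⟨c, hc, persp_one c l⟩
  exfalso
  have h2 : (g * g') • e = e := (hF G P L hG _ _ _ he h1).2.2.1
  rw [mul_smul] at h2
  have h3 : g' • e = g⁻¹ • e := by rw [eq_inv_smul_iff]; exact h2
  have hce : c ≠ e := fun e1 => hel (e1 ▸ hc)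
  have hce' : c' ≠ e := fun e1 => hel (e1 ▸ hc')
  have hm := HasLines.mkLine_ax (P := P) (L := L) hce
  have hm' := HasLines.mkLine_ax (P := P) (L := L) hce'
  set m : L := HasLines.mkLine hce with hmdef
  set m' : L := HasLines.mkLine hce' with hmdef'
  have k1 : g' • e ∈ m' := by
    have := (hG.inc g' e m').2 hm'.2
    rwa [h'.ce m' hm'.1] at this
  have k2 : g' • e ∈ m := by
    rw [h3]
    have := (hG.inc g⁻¹ e m).2 hm.2
    rwa [(persp_inv h).ce m hm.1] at this
  rcases Nondegenerate.eq_or_eq k2 hm.2 k1 hm'.2 with h4 | h4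
  · exact hg' (fix_mem hF hG hc' h' hel h4)
  · have h5 : c' ∈ m := by rw [h4]; exact hm'.1
    have h6 : m = l := (Nondegenerate.eq_or_eq hm.1 h5 hc hc').resolve_left hcc
    exact hel (h6 ▸ hm.2)

/-- the group of all elations with axis `l` -/
def EE (hF : TaskFix) (hA : TaskAxis) (hG : Col G P L) (l : L) (c₀ : P) (h₀ : c₀ ∈ l) :
    Subgroup G where
  carrier := {g | ∃ c : P, c ∈ l ∧ Persp g c l}
  mul_mem' := by
    rintro g g' ⟨c, hc, h⟩ ⟨c', hc', h'⟩
    exact mul_mem hF hA hG hc hc' h h'
  one_mem' := ⟨c₀, h₀, persp_one c₀ l⟩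
  inv_mem' := by
    rintro g ⟨c, hc, h⟩
    exact ⟨c, hc, persp_inv h⟩

theorem stable_off {g : G} {c : P} {l : L} (h : Persp g c l) {x : P} (hx : x ∉ l) : g • x ∉ l := by
  intro h1
  have h2 := (persp_inv h).ax _ h1
  rw [inv_smul_smul] at h2
  exact hx (h2 ▸ h1)

theorem card_off (l : L) : Nat.card {p : P | p ∉ l} = order P L ^ 2 := by
  classical
  have i1 : Fintype P := Fintype.ofFinite _
  have i2 : Fintype L := Fintype.ofFinite _
  have h1 := card_points P L
  have h2 := pointCount_eq P l
  unfold pointCount at h2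
  have h3 : Nat.card {p : P // p ∈ l} + Nat.card {p : P // p ∉ l} = Nat.card P := by
    rw [← Nat.card_sum]
    exact Nat.card_congr (Equiv.sumCompl (fun p : P => p ∈ l))
  rw [Nat.card_eq_fintype_card (α := P), h1, h2] at h3
  have h4 : Nat.card {p : P | p ∉ l} = Nat.card {p : P // p ∉ l} := rfl
  omega

theorem dvd_order (hF : TaskFix) (hG : Col G P L) {c : P} {l : L} (hc : c ∈ l) :
    Nat.card {g : G // Persp g c l} ∣ order P L := by
  classical
  obtain ⟨q, hq⟩ := Nondegenerate.exists_point (P := P) l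
  have hqc : c ≠ q := fun e => hq (e ▸ hc)
  have hm := HasLines.mkLine_ax (P := P) (L := L) hqc
  set m : L := HasLines.mkLine hqc with hmdef
  have hml : m ≠ l := fun e => hq (e ▸ hm.2)
  have hoff : ∀ x : P, x ∈ m → x ≠ c → x ∉ l := by
    intro x hx hxc hxl
    exact hml ((Nondegenerate.eq_or_eq hx hm.1 hxl hc).resolve_left hxc)
  have h1 := semireg (Ec G c l) {x : P | x ∈ m ∧ x ≠ c} (by
    rintro g hg x ⟨hx, hxc⟩
    have hg' : Persp g c l := hg
    refine ⟨?_, ?_⟩
    · have := (hG.inc g x m).2 hx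
      rwa [hg'.ce m hm.1] at this
    · intro e
      exact stable_off hg' (hoff x hx hxc) (e ▸ hc)) (by
    rintro g hg x ⟨hx, hxc⟩ h2
    exact fix_mem hF hG hc hg (hoff x hx hxc) h2)
  have h2 : Nat.card {x : P | x ∈ m ∧ x ≠ c} = order P L := by
    have h3 := pointCount_eq P m
    unfold pointCount at h3
    have i1 : Fintype P := Fintype.ofFinite _
    rw [Nat.card_eq_fintype_card, Fintype.card_subtype] at h3
    have h4 : Nat.card {x : P | x ∈ m ∧ x ≠ c} = ((Finset.univ.filter (fun x : P => x ∈ m)).erase c).card := by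
      rw [Nat.card_eq_fintype_card, Fintype.card_ofFinset]
      congr 1
      ext x
      simp [and_comm]
    rw [h4, Finset.card_erase_of_mem (by simpa using hm.1), h3]
    simp
  rw [h2] at h1
  exact h1

theorem card_EE (hF : TaskFix) (hA : TaskAxis) (hG : Col G P L) (l : L) (c₀ : P) (h₀ : c₀ ∈ l)
    (h : ℕ) (_hh : 1 ≤ h) (hc : ∀ c : P, c ∈ l → Nat.card {g : G // Persp g c l} = h) :
    Nat.card (EE hF hA hG l c₀ h₀) = (order P L + 1) * (h - 1) + 1 := by
  classical
  have i1 : Fintype P := Fintype.ofFinite _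
  have i2 : Fintype G := Fintype.ofFinite _
  have h1 : Nat.card (EE hF hA hG l c₀ h₀) =
      (Finset.univ.filter (fun g : G => ∃ c : P, c ∈ l ∧ Persp g c l)).card := by
    rw [Nat.card_eq_fintype_card]
    rw [← Fintype.card_subtype]
    exact Fintype.card_congr (Equiv.refl _)
  have h2 : (Finset.univ.filter (fun g : G => ∃ c : P, c ∈ l ∧ Persp g c l)) =
      insert 1 ((Finset.univ.filter (fun c : P => c ∈ l)).biUnion (fun c =>
        (Finset.univ.filter (fun g : G => Persp g c l)).erase 1)) := by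
    ext g
    simp only [Finset.mem_filter, Finset.mem_univ, true_and, Finset.mem_insert, Finset.mem_biUnion,
      Finset.mem_erase]
    constructor
    · rintro ⟨c, hc1, hc2⟩
      by_cases hg : g = 1
      · exact Or.inl hg
      · exact Or.inr ⟨c, hc1, hg, hc2⟩
    · rintro (rfl | ⟨c, hc1, -, hc2⟩)
      · exact ⟨c₀, h₀, persp_one c₀ l⟩
      · exact ⟨c, hc1, hc2⟩
  rw [h1, h2, Finset.card_insert_of_notMem (by simp), Finset.card_biUnion]
  · have h3 : ∀ c ∈ Finset.univ.filter (fun c : P => c ∈ l),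
        ((Finset.univ.filter (fun g : G => Persp g c l)).erase 1).card = h - 1 := by
      intro c hcl
      have hcl' : c ∈ l := by simpa using hcl
      rw [Finset.card_erase_of_mem (by simpa using persp_one c l)]
      have := hc c hcl'
      rw [Nat.card_eq_fintype_card, Fintype.card_subtype] at this
      rw [this]
    rw [Finset.sum_congr rfl h3, Finset.sum_const, smul_eq_mul]
    have h4 := pointCount_eq P l
    unfold pointCount at h4
    rw [Nat.card_eq_fintype_card, Fintype.card_subtype] at h4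
    rw [h4]
  · intro c hc1 c' hc1' hne
    have hc1 : c ∈ l := by simpa using hc1
    have hc1' : c' ∈ l := by simpa using hc1'
    rw [Function.onFun, Finset.disjoint_left]
    intro g hg hg'
    simp only [Finset.mem_erase, Finset.mem_filter, Finset.mem_univ, true_and] at hg hg'
    exact hg.1 (two_centres hF hG hc1 hc1' hne hg.2 hg'.2)

end

theorem taskCount (hF : TaskFix) (hA : TaskAxis) : Pool.Agent.H634R3.WG.TaskCount := by
  intro G P L _ _ _ _ _ _ _ _ hG l h h2 hc
  classical
  have i1 : Fintype P := Fintype.ofFinite _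
  obtain ⟨c₀, h₀⟩ : ∃ c : P, c ∈ l := by
    have h4 := pointCount_eq P l
    unfold pointCount at h4
    have : 0 < Nat.card {p : P // p ∈ l} := by omega
    rw [Nat.card_pos_iff] at this
    obtain ⟨x⟩ := this.1
    exact ⟨x.1, x.2⟩
  have hdvd : h ∣ order P L := by
    rw [← hc c₀ h₀]
    exact dvd_order hF hG h₀
  have hpos : 0 < order P L := lt_trans one_pos (one_lt_order P L)
  apply arith (order P L) h hpos h2 hdvd
  rw [← card_EE hF hA hG l c₀ h₀ h (by omega) hc, ← card_off (P := P) l]
  apply semireg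
  · rintro g ⟨c, hc1, hc2⟩ x hx
    exact stable_off hc2 hx
  · rintro g ⟨c, hc1, hc2⟩ x hx h3
    exact fix_mem hF hG hc1 hc2 hx h3

end Pool.Agent.H634R3.WG.TaskCount
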