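import Pool.Agent.H634R3.WG.Stmts

set_option autoImplicit false

/-!
# Squares and prime powers have density zero
-/

namespace Pool.Agent.H634R3.WG.TaskDens

open Filter Topology Finset Pool.Agent.H771R2.Dens Pool.Agent.H634R3.PPC

theorem taskDens : TaskDens := by
  unfold TaskDens
  refine tendsto_zero2 _ (fun q => (q : ZMod 3) = 2) (fun q n => q ∣ n ∧ ¬ q ^ 2 ∣ n)
    (fun _ r => (r : ZMod 3) = 1) (big_ap (by decide)) (fun q hq _ => per_exact hq)
    (fun q _ _ => big_ap isUnit_one) ?_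
  rintro n (⟨m, rfl⟩ | hpp) q hq hq2 ⟨hqn, hqn2⟩ r hr hr1 hrn _
  · apply hqn2
    have h : q ∣ m := by
      rcases (Nat.Prime.dvd_mul hq).1 hqn with h | h <;> exact h
    rw [sq]
    exact mul_dvd_mul h h
  · rw [isPrimePow_nat_iff] at hpp
    obtain ⟨p, k, hp, hk, rfl⟩ := hpp
    have h1 : q = p := (Nat.prime_dvd_prime_iff_eq hq hp).1 (hq.dvd_of_dvd_pow hqn)
    have h2 : r = p := (Nat.prime_dvd_prime_iff_eq hr hp).1 (hr.dvd_of_dvd_pow hrn)
    rw [h1] at hq2
    rw [h2] at hr1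
    have hq2' : (p : ZMod 3) = 2 := hq2
    have hr1' : (p : ZMod 3) = 1 := hr1
    rw [hr1'] at hq2'
    exact absurd hq2' (by decide)

end Pool.Agent.H634R3.WG.TaskDens
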