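import Pool.Agent.H634R3.WG.Stmts
import Pool.Agent.H634R3.PPC.Central

set_option autoImplicit false

/-!
# The fixed points and lines of a perspectivity
-/

namespace Pool.Agent.H634R3.WG.TaskFix

open Configuration Configuration.ProjectivePlane Filter Topology
open Pool.Agent.H634R3.WG Pool.Agent.H634R3.PPC

section

variable {G P L : Type} [Group G] [Finite P] [Finite L] [Membership P L] [ProjectivePlane P L]
  [MulAction G P] [MulAction G L]

theorem central (hG : Col G P L) {g : G} {c : P} {l : L} (h : Persp g c l) :
    Central c l (MulAction.toPerm g : Equiv.Perm P) (MulAction.toPerm g : Equiv.Perm L) :=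
  ⟨fun p m => hG.inc g p m, fun p hp => h.ax p hp, fun m hm => h.ce m hm⟩

theorem central_dual (hG : Col G P L) {g : G} {c : P} {l : L} (h : Persp g c l) :
    Central (P := Dual L) (L := Dual P) l c (MulAction.toPerm g : Equiv.Perm L)
      (MulAction.toPerm g : Equiv.Perm P) :=
  ⟨fun m p => hG.inc g p m, fun m hm => h.ce m hm, fun p hp => h.ax p hp⟩

end

theorem taskFix : Pool.Agent.H634R3.WG.TaskFix := by
  intro G P L _ _ _ _ _ _ _ _ hG g c l h hg
  have hC := central hG h
  have hD := central_dual hG h
  refine ⟨?_, ?_, ?_, ?_⟩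
  · intro z hz
    by_contra hcon
    push Not at hcon
    apply hg
    apply hG.ff
    have h1 := hC.eq_one hcon.2 hcon.1 hz
    intro p
    have := congrArg (fun σ : Equiv.Perm P => σ p) h1
    exact this
  · intro m hm
    by_contra hcon
    push Not at hcon
    apply hg
    apply hG.ff
    have h1 := hD.eq_one (x := m) hcon.2 hcon.1 hm
    have h2 : ∀ k : L, g • k = k := by
      intro k
      have := congrArg (fun σ : Equiv.Perm L => σ k) h1
      exact this
    intro p
    obtain ⟨k, hk, -, -⟩ := exists_line_ne_ne p l l
    obtain ⟨k', hk', hkk', -⟩ := exists_line_ne_ne p k k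
    exact fixed_point hC.inc (h2 k) (h2 k') (Ne.symm hkk') hk hk'
  · exact hC.fix_centre
  · exact hD.fix_centre

end Pool.Agent.H634R3.WG.TaskFix
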