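import Pool.Agent.H634R3.WG.Stmts

set_option autoImplicit false

/-!
# A transitive group with an elation of prime order is transitive on flags
-/

namespace Pool.Agent.H634R3.WG.TaskFlag

open Configuration Configuration.ProjectivePlane

/-- `(x, m)` is a flag and there is an elation of order `p` with centre `x` and axis `m` -/
def Ela {G P L : Type} [Group G] [Membership P L] [MulAction G P] [MulAction G L]
    (G' : Type) (_ : G' = G) (p : ℕ) (x : P) (m : L) : Prop :=
  x ∈ m ∧ ∃ g : G, g ≠ 1 ∧ g ^ p = 1 ∧ Persp g x m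

section

variable {G P L : Type} [Group G] [Membership P L] [MulAction G P] [MulAction G L]

theorem persp_conj (hc : Col G P L) {g : G} {x : P} {m : L} (h : Persp g x m) (k : G) :
    Persp (k * g * k⁻¹) (k • x) (k • m) := by
  constructor
  · intro q hq
    have h1 : k⁻¹ • q ∈ m := by
      rw [← hc.inc k, smul_inv_smul]
      exact hq
    rw [mul_smul, mul_smul, h.ax _ h1, smul_inv_smul]
  · intro n hn
    have h1 : x ∈ k⁻¹ • n := by
      rw [← hc.inc k, smul_inv_smul]
      exact hn
    rw [mul_smul, mul_smul, h.ce _ h1, smul_inv_smul]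

theorem ela_smul (hc : Col G P L) {p : ℕ} {x : P} {m : L} (h : Ela (G := G) G rfl p x m) (k : G) :
    Ela (G := G) G rfl p (k • x) (k • m) := by
  obtain ⟨hx, g, h1, h2, h3⟩ := h
  refine ⟨(hc.inc k x m).2 hx, k * g * k⁻¹, ?_, ?_, persp_conj hc h3 k⟩
  · intro h
    exact h1 (conj_eq_one_iff.1 h)
  · rw [conj_pow, h2]
    simp

end

theorem taskFlag (hF : TaskFix) (hG : TaskGleason) : TaskFlag := by
  intro G P L _ _ _ _ _ _ _ _ hc htp htl p e c l hp he hep hcl hpe
  -- every point is a centre, every line is an axis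
  have hela : Ela (G := G) G rfl p c l := ⟨hcl, e, he, hep, hpe⟩
  have hex : ∀ x : P, ∃ m : L, Ela (G := G) G rfl p x m := by
    intro x
    obtain ⟨g, hg⟩ := htp c x
    refine ⟨g • l, ?_⟩
    rw [← hg]
    exact ela_smul hc hela g
  have hey : ∀ m : L, ∃ x : P, Ela (G := G) G rfl p x m := by
    intro m
    obtain ⟨g, hg⟩ := htl l m
    refine ⟨g • c, ?_⟩
    rw [← hg]
    exact ela_smul hc hela g
  -- some point has two axes
  have htwo : ∃ (x : P) (m k : L), m ≠ k ∧ Ela (G := G) G rfl p x m ∧
      Ela (G := G) G rfl p x k := by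
    by_contra hcon
    have huni : ∀ (x : P) (m k : L), Ela (G := G) G rfl p x m → Ela (G := G) G rfl p x k →
        m = k := by
      intro x m k h1 h2
      by_contra hne
      exact hcon ⟨x, m, k, hne, h1, h2⟩
    choose f hf using hex
    have hsurj : Function.Surjective f := by
      intro m
      obtain ⟨x, hx⟩ := hey m
      exact ⟨x, huni x _ _ (hf x) hx⟩
    have hinj : Function.Injective f := by
      classical
      have := Fintype.ofFinite P
      have := Fintype.ofFinite L
      have hcard : Fintype.card P = Fintype.card L := by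
        rw [ProjectivePlane.card_points P L, ProjectivePlane.card_lines P L]
      exact ((Fintype.bijective_iff_surjective_and_card f).2 ⟨hsurj, hcard⟩).1
    have hunic : ∀ (x y : P) (m : L), Ela (G := G) G rfl p x m → Ela (G := G) G rfl p y m →
        x = y := by
      intro x y m h1 h2
      exact hinj ((huni x _ _ (hf x) h1).trans (huni y _ _ (hf y) h2).symm)
    obtain ⟨x, hxl, hxc, -⟩ := Pool.Agent.H634R3.PPC.exists_ne_ne (P := P) l c c
    obtain ⟨hxk, g, hg1, hgp, hg⟩ := hf x
    have hkl : f x ≠ l := by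
      intro h
      have h1 := hf x
      rw [h] at h1
      exact hxc (hunic x c l h1 hela)
    obtain ⟨hF1, hF2, hF3, hF4⟩ := hF G P L hc g x (f x) hg hg1
    have hgl : g • l = l := hg.ce l hxl
    have h1 := ela_smul hc hela g
    rw [hgl] at h1
    have hgc : g • c = c := hunic _ _ l h1 hela
    rcases hF1 c hgc with h | h
    · exact hxc h.symm
    · rcases Nondegenerate.eq_or_eq hxk h hxl hcl with h' | h'
      · exact hxc h'
      · exact hkl h'
  -- every flag
  have hflag : ∀ (x : P) (m : L), ∃ k : L, k ≠ m ∧ Ela (G := G) G rfl p x k := by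
    intro x m
    obtain ⟨x0, m1, k1, hne, h1, h2⟩ := htwo
    obtain ⟨g, hg⟩ := htp x0 x
    have h1' := ela_smul hc h1 g
    have h2' := ela_smul hc h2 g
    rw [hg] at h1' h2'
    by_cases hm : g • m1 = m
    · refine ⟨g • k1, ?_, h2'⟩
      intro h
      apply hne
      have h3 : g • m1 = g • k1 := hm.trans h.symm
      exact (MulAction.injective g) h3
    · exact ⟨g • m1, hm, h1'⟩
  -- the stabilizer of a line is transitive on its points
  have hstab : ∀ (m : L) (x : P), x ∈ m → ∀ y : P, y ∈ m → ∃ g : G, g • m = m ∧ g • x = y := by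
    intro m x hx y hy
    have hS1 : ∀ g ∈ MulAction.stabilizer G m, ∀ z ∈ {z : P | z ∈ m}, g • z ∈ {z : P | z ∈ m} := by
      intro g hg z hz
      have hgm : g • m = m := MulAction.mem_stabilizer_iff.1 hg
      have h1 : g • z ∈ g • m := (hc.inc g z m).2 hz
      rw [hgm] at h1
      exact h1
    have hS2 : ∀ z ∈ {z : P | z ∈ m}, ∃ g ∈ MulAction.stabilizer G m, g ^ p = 1 ∧
        ∀ w ∈ {z : P | z ∈ m}, g • w = w ↔ w = z := by
      intro z hz
      have hz' : z ∈ m := hz
      obtain ⟨k, hkm, hzk, g, hg1, hgp, hg⟩ := hflag z m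
      obtain ⟨hF1, hF2, hF3, hF4⟩ := hF G P L hc g z k hg hg1
      refine ⟨g, MulAction.mem_stabilizer_iff.2 (hg.ce m hz'), hgp, ?_⟩
      intro w hw
      have hw' : w ∈ m := hw
      constructor
      · intro h
        rcases hF1 w h with h' | h'
        · exact h'
        · rcases Nondegenerate.eq_or_eq h' hzk hw' hz' with h'' | h''
          · exact h''
          · exact absurd h'' hkm
      · rintro rfl
        exact hg.ax _ hzk
    obtain ⟨g, hg, hgx⟩ := hG G P (MulAction.stabilizer G m) {z : P | z ∈ m} p hp hS1 hS2 x hx y hy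
    exact ⟨g, MulAction.mem_stabilizer_iff.1 hg, hgx⟩
  -- flags
  intro x y m k hxm hyk
  obtain ⟨h, hh⟩ := htl m k
  have hhx : h • x ∈ k := by
    rw [← hh]
    exact (hc.inc h x m).2 hxm
  obtain ⟨g, hgk, hg⟩ := hstab k (h • x) hhx y hyk
  refine ⟨g * h, ?_, ?_⟩
  · rw [mul_smul, hg]
  · rw [mul_smul, hh, hgk]

end Pool.Agent.H634R3.WG.TaskFlag
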