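import Pool.Agent.H634R3.WG.Stmts

set_option autoImplicit false

namespace Pool.Agent.H634R3.WG.TaskGleason

open Configuration Configuration.ProjectivePlane Filter Topology

theorem end_mod {O : Type} [Finite O] {p : ℕ} (hp : p.Prime) (f : Function.End O)
    (hf : f ^ p = 1) : Nat.card O ≡ Nat.card {z : O // f z = z} [MOD p] := by
  classical
  have : Fact p.Prime := ⟨hp⟩
  let _ := Fintype.ofFinite O
  have h1 := Equiv.Perm.card_fixedPoints_modEq (p := p) (n := 1) (f := f) (by rwa [pow_one])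
  have h2 := Fintype.card_congr (Equiv.subtypeEquivRight
    (p := fun z => z ∈ Function.fixedPoints f) (q := fun z : O => f z = z) fun z => Iff.rfl)
  rw [Nat.card_eq_fintype_card, Nat.card_eq_fintype_card, ← h2]
  exact h1

/-- number of points of an orbit modulo `p`, by counting fixed points of an element of order `p` -/
theorem orbit_mod {G X : Type} [Group G] [Finite X] [MulAction G X] (H : Subgroup G) (x : X)
    (p : ℕ) (hp : p.Prime) (g : G) (hg : g ∈ H) (hgp : g ^ p = 1) :
    Nat.card (MulAction.orbit H x) ≡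
      Nat.card {z : MulAction.orbit H x // g • z.1 = z.1} [MOD p] := by
  classical
  have : Finite (MulAction.orbit H x) := Subtype.finite
  have hf : (MulAction.toEndHom (⟨g, hg⟩ : H) : Function.End (MulAction.orbit H x)) ^ p = 1 := by
    rw [← map_pow]
    have : (⟨g, hg⟩ : H) ^ p = 1 := Subtype.ext hgp
    rw [this, map_one]
  have h1 := end_mod hp _ hf
  have h2 := Nat.card_congr (Equiv.subtypeEquivRight
    (p := fun z : MulAction.orbit H x =>
      (MulAction.toEndHom (⟨g, hg⟩ : H) : Function.End (MulAction.orbit H x)) z = z)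
    (q := fun z : MulAction.orbit H x => g • z.1 = z.1) (fun z => by
      rw [Subtype.ext_iff]; rfl))
  rw [h2] at h1
  exact h1

theorem taskGleason : TaskGleason := by
  intro G X _ _ _ _ H S p hp hS hfix x hx y hy
  by_contra hcon
  have hOS : ∀ z ∈ MulAction.orbit H x, z ∈ S := by
    rintro z ⟨h, rfl⟩
    exact hS h.1 h.2 x hx
  have hyO : y ∉ MulAction.orbit H x := by
    rintro ⟨h, hh⟩
    exact hcon ⟨h.1, h.2, hh⟩
  obtain ⟨g, hg, hgp, hgf⟩ := hfix x hx
  obtain ⟨k, hk, hkp, hkf⟩ := hfix y hy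
  have h1 := orbit_mod H x p hp g hg hgp
  have h2 := orbit_mod H x p hp k hk hkp
  have c1 : Nat.card {z : MulAction.orbit H x // g • z.1 = z.1} = 1 := by
    rw [Nat.card_eq_one_iff_unique]
    refine ⟨⟨?_⟩, ⟨⟨⟨x, MulAction.mem_orbit_self x⟩, (hgf x hx).2 rfl⟩⟩⟩
    intro a b
    apply Subtype.ext
    apply Subtype.ext
    rw [(hgf a.1.1 (hOS _ a.1.2)).1 a.2, (hgf b.1.1 (hOS _ b.1.2)).1 b.2]
  have c2 : Nat.card {z : MulAction.orbit H x // k • z.1 = z.1} = 0 := by
    have : IsEmpty {z : MulAction.orbit H x // k • z.1 = z.1} := by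
      refine ⟨fun a => ?_⟩
      have := (hkf a.1.1 (hOS _ a.1.2)).1 a.2
      exact hyO (this ▸ a.1.2)
    exact Nat.card_of_isEmpty
  rw [c1] at h1
  rw [c2] at h2
  have h3 : 1 ≡ 0 [MOD p] := h1.symm.trans h2
  have h4 : p ∣ 1 := (Nat.modEq_zero_iff_dvd).1 h3
  exact hp.one_lt.ne' (Nat.dvd_one.1 h4)

end Pool.Agent.H634R3.WG.TaskGleason
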