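import Pool.Agent.H634R3.WG.Stmts

/-! TaskPP: the order is a prime power (helper121) -/

set_option autoImplicit false

namespace Pool.Agent.H634R3.WG.TaskPP

open Configuration Configuration.ProjectivePlane Pool.Agent.H634R3.WG

section

variable {G P L : Type} [Group G] [Membership P L] [MulAction G P] [MulAction G L]

theorem persp_one (c : P) (l : L) : Persp (1 : G) c l :=
  ⟨fun p _ => one_smul G p, fun m _ => one_smul G m⟩

theorem pmul {g h : G} {c : P} {l : L} (hg : Persp g c l) (hh : Persp h c l) :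
    Persp (g * h) c l :=
  ⟨fun p hp => by rw [mul_smul, hh.ax p hp, hg.ax p hp],
    fun m hm => by rw [mul_smul, hh.ce m hm, hg.ce m hm]⟩

theorem pinv {g : G} {c : P} {l : L} (hg : Persp g c l) : Persp g⁻¹ c l :=
  ⟨fun p hp => by rw [inv_smul_eq_iff, hg.ax p hp],
    fun m hm => by rw [inv_smul_eq_iff, hg.ce m hm]⟩

/-- the group of perspectivities with centre `c` and axis `l` -/
def EE (G : Type) [Group G] [MulAction G P] [MulAction G L] (c : P) (l : L) : Subgroup G where
  carrier := {g | Persp g c l}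
  mul_mem' := fun ha hb => pmul ha hb
  one_mem' := persp_one c l
  inv_mem' := fun ha => pinv ha

theorem mem_EE {g : G} {c : P} {l : L} : g ∈ EE G c l ↔ Persp g c l := Iff.rfl

/-- conjugation by `g` with `g` trivial on the axis -/
theorem pconj (hcol : Col G P L) {g h : G} {c : P} {l : L} (hg : ∀ p : P, p ∈ l → g • p = p)
    (hcl : c ∈ l) (hh : Persp h c l) : Persp (g * h * g⁻¹) c l := by
  have hg' : ∀ p : P, p ∈ l → g⁻¹ • p = p := fun p hp => by rw [inv_smul_eq_iff, hg p hp]
  constructor
  · intro p hp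
    rw [mul_smul, mul_smul, hg' p hp, hh.ax p hp, hg p hp]
  · intro m hm
    have h1 : c ∈ g⁻¹ • m := by
      rw [← hg' c hcl, hcol.inc]
      exact hm
    rw [mul_smul, mul_smul, hh.ce _ h1, smul_inv_smul]

end

/-- a nontrivial perspectivity has only one centre -/
theorem uniq {G P L : Type} [Group G] [Finite G] [Finite P] [Finite L] [Membership P L]
    [ProjectivePlane P L] [MulAction G P] [MulAction G L] (hF : TaskFix) (hcol : Col G P L)
    {k : G} {c d : P} {l : L} (hc : Persp k c l) (hd : Persp k d l) (hcd : c ≠ d) : k = 1 := by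
  by_contra hk
  have h1 := hF G P L hcol k c l hc hk
  have h2 := hF G P L hcol k d l hd hk
  have hdl : d ∈ l := (h1.1 d h2.2.2.1).resolve_left (Ne.symm hcd)
  have hcl : c ∈ l := (h2.1 c h1.2.2.1).resolve_left hcd
  obtain ⟨m, hdm, hml, -⟩ := Pool.Agent.H634R3.PPC.exists_line_ne_ne d l l
  rcases h1.2.1 m (hd.ce m hdm) with h3 | h3
  · exact hml h3
  · exact hml ((Nondegenerate.eq_or_eq h3 hdm hcl hdl).resolve_left hcd)

theorem taskPP (hF : TaskFix) (hA : TaskAxis) : TaskPP := by
  intro G P L _ _ _ _ _ _ _ _ hcol l p hp hcard hel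
  have hn : 1 < order P L := one_lt_order P L
  have key : ∀ {r : ℕ}, r.Prime → r ∣ order P L → r = p := by
    intro r hr hrn
    by_contra hrp
    obtain ⟨c, hcl, -, -⟩ := Pool.Agent.H634R3.PPC.exists_ne_ne (P := P) l
      (Classical.choose (@exists_config P L _ _)) (Classical.choose (@exists_config P L _ _))
    obtain ⟨d, hdl, hdc, -⟩ := Pool.Agent.H634R3.PPC.exists_ne_ne (P := P) l c c
    have : Fact r.Prime := ⟨hr⟩
    have hcd : r ∣ Nat.card (EE G c l) := by
      have : Nat.card (EE G c l) = order P L := hcard c hcl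
      rw [this]
      exact hrn
    obtain ⟨⟨g, hg⟩, hgo⟩ := exists_prime_orderOf_dvd_card' r hcd
    have hgord : orderOf g = r := by
      rw [← hgo]
      exact (Subgroup.orderOf_mk g _).symm
    have hg' : Persp g c l := hg
    obtain ⟨h, hh1, hhp, hh⟩ := hel d hdl
    -- they commute
    have hcomm : g * h * g⁻¹ * h⁻¹ = 1 := by
      apply uniq hF hcol (c := c) (d := d) (l := l) _ _ (Ne.symm hdc)
      · have h1 : Persp (h * g⁻¹ * h⁻¹) c l := pconj hcol hh.ax hcl (pinv hg')
        have h2 := pmul hg' h1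
        have h3 : g * (h * g⁻¹ * h⁻¹) = g * h * g⁻¹ * h⁻¹ := by group
        rwa [h3] at h2
      · exact pmul (pconj hcol hg'.ax hdl hh) (pinv hh)
    have hc' : Commute g h := by
      have h1 : g * h * g⁻¹ = h := mul_inv_eq_one.1 hcomm
      exact mul_inv_eq_iff_eq_mul.1 h1
    obtain ⟨e, he⟩ := hA G P L hcol (g * h) l (fun q hq => by
      rw [mul_smul, hh.ax q hq, hg'.ax q hq])
    have hep : Persp ((g * h) ^ p) e l := (EE G e l).pow_mem he p
    have hgp : Persp (g ^ p) c l := (EE G c l).pow_mem hg' p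
    rw [hc'.mul_pow, hhp, mul_one] at hep
    by_cases hec : e = c
    · subst hec
      have h1 : Persp h e l := by
        have h2 := pmul (pinv hg') he
        rwa [inv_mul_cancel_left] at h2
      exact hh1 (uniq hF hcol hh h1 hdc)
    · have h1 : g ^ p = 1 := uniq hF hcol hep hgp hec
      have h2 : r ∣ p := by
        rw [← hgord]
        exact orderOf_dvd_of_pow_eq_one h1
      rcases (Nat.dvd_prime hp).1 h2 with h3 | h3
      · exact hr.one_lt.ne' h3
      · exact hrp h3
  have h1 := Nat.eq_prime_pow_of_unique_prime_dvd (n := order P L) (p := p) (by omega) key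
  rw [h1]
  refine (Nat.Prime.isPrimePow hp).pow ?_
  intro h0
  rw [h0, pow_zero] at h1
  omega

end Pool.Agent.H634R3.WG.TaskPP
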