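import Pool.Agent.H634R3.WG.Stmts

set_option autoImplicit false

/-! A polarity of a finite projective plane has an absolute point. -/

namespace Pool.Agent.H634R3.WG.TaskPolarity

open Configuration Configuration.ProjectivePlane Matrix

theorem taskPolarity : Pool.Agent.H634R3.WG.TaskPolarity := by
  intro P L _ _ _ _ f hf hsym
  classical
  by_contra hno
  push Not at hno
  have : Fintype P := Fintype.ofFinite P
  have : Fintype L := Fintype.ofFinite L
  have hn := one_lt_order P L
  obtain ⟨p, hp, hpn⟩ := Nat.exists_prime_and_dvd (n := order P L) (by omega)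
  have : Fact p.Prime := ⟨hp⟩
  have hn0 : ((order P L : ℕ) : ZMod p) = 0 := (ZMod.natCast_eq_zero_iff _ _).mpr hpn
  let A : Matrix P P (ZMod p) := Matrix.of fun x y => if y ∈ f x then 1 else 0
  let J : Matrix P P (ZMod p) := Matrix.of fun _ _ => 1
  have hrow : ∀ x, (∑ z, A x z) = 1 := by
    intro x
    have h1 : (∑ z, A x z) = (((Finset.univ.filter fun z => z ∈ f x).card : ℕ) : ZMod p) := by
      simp only [A, Matrix.of_apply]
      rw [Finset.sum_boole]
    have h2 : (Finset.univ.filter fun z => z ∈ f x).card = order P L + 1 := by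
      rw [← pointCount_eq (P := P) (f x)]
      unfold pointCount
      rw [Nat.card_eq_fintype_card, Fintype.card_subtype]
    rw [h1, h2]
    push_cast
    rw [hn0, zero_add]
  have hAA : A * A = J := by
    ext x y
    rw [Matrix.mul_apply]
    have h1 : ∀ z, A x z * A z y = if z ∈ f x ∧ z ∈ f y then 1 else 0 := by
      intro z
      simp only [A, Matrix.of_apply]
      rw [hsym z y]
      by_cases h1 : z ∈ f x <;> by_cases h2 : z ∈ f y <;> simp [h1, h2]
    simp only [h1]
    rw [Finset.sum_boole]
    simp only [J, Matrix.of_apply]
    by_cases hxy : x = y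
    · subst hxy
      simp only [and_self]
      have h2 := hrow x
      simp only [A, Matrix.of_apply] at h2
      rw [Finset.sum_boole] at h2
      exact h2
    · have hne : f x ≠ f y := fun h => hxy (hf h)
      obtain ⟨z, hz, hz'⟩ := HasPoints.existsUnique_point P L (f x) (f y) hne
      have h2 : (Finset.univ.filter fun z => z ∈ f x ∧ z ∈ f y) = {z} := by
        ext w
        simp only [Finset.mem_filter, Finset.mem_univ, true_and, Finset.mem_singleton]
        exact ⟨fun hw => hz' w hw, fun hw => by rw [hw]; exact hz⟩
      rw [h2]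
      simp
  have hAJ : A * J = J := by
    ext x y
    rw [Matrix.mul_apply]
    simp only [J, Matrix.of_apply, mul_one]
    exact hrow x
  have hpow : ∀ k : ℕ, A ^ (k + 2) = J := by
    intro k
    induction k with
    | zero => rw [zero_add, pow_two, hAA]
    | succ k ih => rw [show k + 1 + 2 = (k + 2) + 1 by ring, pow_succ', ih, hAJ]
  have hAp : A ^ p = J := by
    have h2 := hp.two_le
    have := hpow (p - 2)
    rwa [Nat.sub_add_cancel h2] at this
  have htr := ZMod.trace_pow_card (p := p) A
  rw [hAp] at htr
  have htrA : Matrix.trace A = 0 := by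
    simp only [Matrix.trace, Matrix.diag_apply, A, Matrix.of_apply]
    refine Finset.sum_eq_zero fun x _ => ?_
    rw [if_neg (hno x)]
  have htrJ : Matrix.trace J = 1 := by
    simp only [Matrix.trace, Matrix.diag_apply, J, Matrix.of_apply]
    rw [Finset.sum_const, Finset.card_univ, card_points P L, nsmul_eq_mul]
    push_cast
    rw [hn0]
    ring
  rw [htrA, htrJ, zero_pow hp.ne_zero] at htr
  exact one_ne_zero htr

end Pool.Agent.H634R3.WG.TaskPolarity
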