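import Pool.Agent.H634R3.WG.Stmts

/-! TaskProd: the product of two involutory homologies with the same axis (helper121) -/

set_option autoImplicit false

namespace Pool.Agent.H634R3.WG.TaskProd

open Configuration Configuration.ProjectivePlane Pool.Agent.H634R3.WG

theorem aux {G P L : Type} [Group G] [Finite G] [Finite P] [Finite L] [Membership P L]
    [ProjectivePlane P L] [MulAction G P] [MulAction G L] (hF : TaskFix) (hcol : Col G P L)
    {s u : G} {c e : P} {l : L} (hs1 : s ≠ 1) (hu1 : u ≠ 1) (hs : Persp s c l)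
    (hu : Persp u e l) (hconj : s * u * s⁻¹ = u⁻¹) : e = c ∨ e ∈ l := by
  have hsl : s • l = l := (hF G P L hcol s c l hs hs1).2.2.2
  -- `s • e` is a centre of `u` as well
  have hu2 : Persp u (s • e) l := by
    refine ⟨hu.ax, fun m hm => ?_⟩
    have h1 : e ∈ s⁻¹ • m := by
      rw [← hcol.inc s e (s⁻¹ • m), smul_inv_smul]
      exact hm
    have h2 : u • (s⁻¹ • m) = s⁻¹ • m := hu.ce _ h1
    have h3 : (s * u * s⁻¹) • m = m := by
      rw [mul_smul, mul_smul, h2, smul_inv_smul]
    rw [hconj, inv_smul_eq_iff] at h3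
    exact h3.symm
  have h4 : u • (s • e) = s • e := (hF G P L hcol u (s • e) l hu2 hu1).2.2.1
  rcases (hF G P L hcol u e l hu hu1).1 _ h4 with h5 | h5
  · exact (hF G P L hcol s c l hs hs1).1 e h5
  · right
    have h6 : s • e ∈ s • l := by rwa [hsl]
    exact (hcol.inc s e l).1 h6

theorem taskProd (hF : TaskFix) (hA : TaskAxis) : TaskProd := by
  intro G P L _ _ _ _ _ _ _ _ hcol s t c d l hs1 ht1 hs2 ht2 hs ht hcl hdl hcd
  have hsi : s⁻¹ = s := inv_eq_of_mul_eq_one_left hs2
  have hti : t⁻¹ = t := inv_eq_of_mul_eq_one_left ht2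
  have hne : s * t ≠ 1 := by
    intro h
    have hts : t = s := by
      have := eq_inv_of_mul_eq_one_right h
      rw [this, hsi]
    subst hts
    have h1 := (hF G P L hcol t d l ht ht1).2.2.1
    rcases (hF G P L hcol t c l hs hs1).1 d h1 with h2 | h2
    · exact hcd h2.symm
    · exact hdl h2
  refine ⟨hne, ?_⟩
  obtain ⟨e, he⟩ := hA G P L hcol (s * t) l (fun p hp => by
    rw [mul_smul, ht.ax p hp, hs.ax p hp])
  refine ⟨e, ?_, he⟩
  have h1 : e = c ∨ e ∈ l := aux hF hcol hs1 hne hs he (by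
    rw [mul_inv_rev, hsi, hti, ← mul_assoc, hs2, one_mul])
  have h2 : e = d ∨ e ∈ l := aux hF hcol ht1 hne ht he (by
    rw [mul_inv_rev, hsi, hti, mul_assoc, mul_assoc, ht2, mul_one])
  rcases h1 with h1 | h1
  · rcases h2 with h2 | h2
    · exact absurd (h1.symm.trans h2) hcd
    · exact h2
  · exact h1

end Pool.Agent.H634R3.WG.TaskProd
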