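import Pool.Agent.H634R3.WG.Stmts

set_option autoImplicit false

/-!
# The product of two involutory homologies with the same centre
-/

namespace Pool.Agent.H634R3.WG.TaskProdDual

open Configuration Configuration.ProjectivePlane Pool.Agent.H634R3.WG

theorem taskProdDual (hF : TaskFix) (hC : TaskCentre) : TaskProdDual := by
  intro G P L _ _ _ _ _ _ _ _ hcol s t c l m hs ht hss htt hsc htc hcl hcm hlm
  obtain ⟨-, hs2, hs3, hs4⟩ := hF G P L hcol s c l hsc hs
  obtain ⟨-, ht2, ht3, ht4⟩ := hF G P L hcol t c m htc ht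
  have hne : s * t ≠ 1 := by
    intro h
    have hts : t = s := by
      have : s * t = s * s := by rw [h, hss]
      exact mul_left_cancel this
    have h1 : s • m = m := by rw [← hts]; exact ht4
    rcases hs2 m h1 with h2 | h2
    · exact hlm h2.symm
    · exact hcm h2
  refine ⟨hne, ?_⟩
  obtain ⟨k, hk⟩ := hC G P L hcol (s * t) c (fun j hj => by
    rw [mul_smul, htc.ce j hj, hsc.ce j hj])
  refine ⟨k, ?_, hk⟩
  obtain ⟨-, hu2, -, hu4⟩ := hF G P L hcol (s * t) c k hk hne
  have e1 : t • k = s • k := by
    have h1 : s • (s • t • k) = s • k := by rw [← mul_smul s t k, hu4]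
    rw [← mul_smul s s, hss, one_smul] at h1
    exact h1
  have e2 : (s * t) • (s • k) = s • k := by
    rw [← e1, ← mul_smul, mul_assoc, htt, mul_one, e1]
  rcases hu2 _ e2 with h | h
  · rcases hs2 k h with h3 | h3
    · rcases ht2 k (by rw [e1, h]) with h4 | h4
      · exact absurd (h3.symm.trans h4) hlm
      · exact h4
    · exact h3
  · have h5 : s • c ∈ s • k := by rw [hs3]; exact h
    exact (hcol.inc s c k).mp h5

end Pool.Agent.H634R3.WG.TaskProdDual
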