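import Mathlib
import Pool.Agent.H634R3.WG.Main
import Pool.Agent.H634R3.WG.TaskAxis
import Pool.Agent.H634R3.WG.TaskBaer
import Pool.Agent.H634R3.WG.TaskCount
import Pool.Agent.H634R3.WG.TaskDens
import Pool.Agent.H634R3.WG.TaskFix
import Pool.Agent.H634R3.WG.TaskFlag
import Pool.Agent.H634R3.WG.TaskGleason
import Pool.Agent.H634R3.WG.TaskPP
import Pool.Agent.H634R3.WG.TaskPolarity
import Pool.Agent.H634R3.WG.TaskProd
import Pool.Agent.H634R3.WG.TaskProdDual

set_option autoImplicit false

namespace Pool.Agent.H634R3.WG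

theorem main_step : TaskMain :=
  Main.taskMain TaskFix.taskFix TaskAxis.taskAxis TaskBaer.taskBaer
    (TaskProd.taskProd TaskFix.taskFix TaskAxis.taskAxis)
    (TaskProdDual.taskProdDual TaskFix.taskFix TaskAxis.taskCentre)
    TaskPolarity.taskPolarity (TaskFlag.taskFlag TaskFix.taskFix TaskGleason.taskGleason)
    (TaskCount.taskCount TaskFix.taskFix TaskAxis.taskAxis)
    (TaskPP.taskPP TaskFix.taskFix TaskAxis.taskAxis)

end Pool.Agent.H634R3.WG
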