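import Mathlib
import Pool.Agent.H634R3.WG.Main

set_option autoImplicit false

/-!
# The density theorem for point-transitive planes
-/

namespace Pool.Agent.H634R3.WG.Final

open Configuration Configuration.ProjectivePlane Pool.Agent.H634R3.PPC Pool.Agent.H771R2.Dens
open Filter Topology

/-- a plane of order `n` with a finite group of collineations, faithful, transitive on the points,
solvable or of even order -/
def HasTrans (n : ℕ) : Prop :=
  ∃ (P L : Type) (_ : Finite P) (_ : Finite L) (_ : Membership P L) (_ : ProjectivePlane P L)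
    (G : Type) (_ : Group G) (_ : Finite G) (_ : MulAction G P) (_ : MulAction G L),
    (Group.IsSolvable G ∨ Even (Nat.card G)) ∧ order P L = n ∧
      (∀ (g : G) (p : P) (l : L), g • p ∈ g • l ↔ p ∈ l) ∧
        (∀ g : G, (∀ p : P, g • p = p) → g = 1) ∧ ∀ x y : P, ∃ g : G, g • x = y

theorem cases (hM : TaskMain) {n : ℕ} (h : HasTrans n) :
    HasSolvTrans n ∨ (IsSquare n ∨ IsPrimePow n) := by
  obtain ⟨P, L, _, _, _, _, G, _, _, _, _, hse, hn, hinc, hff, htr⟩ := h
  rcases hse with hs | he
  · left
    exact ⟨P, L, inferInstance, inferInstance, inferInstance, inferInstance, G, inferInstance,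
      inferInstance, inferInstance, inferInstance, hs, hn, hinc, htr⟩
  · right
    have : Fact (Nat.Prime 2) := ⟨Nat.prime_two⟩
    obtain ⟨s, hs⟩ := exists_prime_orderOf_dvd_card' (G := G) 2 he.two_dvd
    have hs1 : s ≠ 1 := by
      rintro rfl
      rw [orderOf_one] at hs
      omega
    have hs2 : s * s = 1 := by
      rw [← pow_two, ← hs, pow_orderOf_eq_one]
    have := hM G P L ⟨hinc, hff⟩ htr s hs1 hs2
    rwa [hn] at this

/-- squares and prime powers -/
def SqPP (n : ℕ) : Prop := IsSquare n ∨ IsPrimePow n

theorem density_trans (hM : TaskMain) (hD : TaskDens) :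
    Tendsto (fun N : ℕ => (cnt (fun n => HasTrans n) N : ℝ) / N) atTop (𝓝 0) := by
  classical
  have h1 := density_solv.add hD
  rw [add_zero] at h1
  refine squeeze_zero (fun N => by positivity) (fun N => ?_) h1
  rw [← add_div]
  refine div_le_div_of_nonneg_right ?_ (Nat.cast_nonneg N)
  have h2 : cnt (fun n => HasTrans n) N ≤ cnt (fun n => HasSolvTrans n) N +
      cnt (fun n => SqPP n) N := by
    unfold cnt
    refine le_trans (Finset.card_le_card ?_) (Finset.card_union_le _ _)
    intro n hn
    obtain ⟨hn1, hn2⟩ := Finset.mem_filter.1 hn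
    rw [Finset.mem_union]
    rcases cases hM hn2 with h | h
    · left
      refine Finset.mem_filter.2 ⟨hn1, h⟩
    · right
      refine Finset.mem_filter.2 ⟨hn1, h⟩
  exact_mod_cast h2

end Pool.Agent.H634R3.WG.Final
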