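import Mathlib
import Pool.Agent.H634R3.WG.XStmts
import Pool.Agent.H634R3.WG.Final

set_option autoImplicit false

/-!
# Orders of point-transitive planes pass the test
-/

namespace Pool.Agent.H634R3.WG.Pass

open Configuration Configuration.ProjectivePlane Pool.Agent.H634R3.PPC Pool.Agent.H951R4.OD
open Pool.Agent.H634R3.WG.Final

theorem fl_one (n : ℕ) : fl 1 n = ((n ^ 2 + n + 1 : ℕ) : ℤ) := by
  unfold fl
  push_cast
  ring

theorem pass_solv {n : ℕ} (h : HasSolvTrans n) : PassX (fl 1) (cl 1) n := by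
  classical
  intro r q hr hq hqc hqf hqf2 hch
  obtain ⟨hrp, -, hrn, hrn2⟩ := hr
  have hq2 : q ≠ 2 := by
    rintro rfl
    exact hqc (by decide)
  have hq3 : 2 < q := lt_of_le_of_ne hq.two_le (Ne.symm hq2)
  rw [fl_one] at hqf hqf2
  have hqf' : q ∣ n ^ 2 + n + 1 := by exact_mod_cast hqf
  have hqf2' : ¬ q ^ 2 ∣ n ^ 2 + n + 1 := fun h => hqf2 (by exact_mod_cast h)
  obtain ⟨P, L, _, _, _, _, G, _, _, _, _, hsol, hn, hinc, htr⟩ := h
  have : Fintype P := Fintype.ofFinite P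
  have : Fintype L := Fintype.ofFinite L
  have : Fintype G := Fintype.ofFinite G
  have hcard := card_points P L
  rw [hn] at hcard
  obtain ⟨u, hu⟩ := hrn
  refine solv_test hsol (plane_des (P := P) (L := L)) hinc htr hq hq3 ?_ ?_ ?_ hrp
    (j := (q - 1) / 2) ?_ odd_one (u := u) ?_ (hn.trans (by rw [hu, pow_one]))
  · rw [hcard]
    exact hqf'
  · rw [hcard]
    exact hqf2'
  · rw [hcard]
    have : n ^ 2 + n = n * (n + 1) := by ring
    rw [this]
    exact (Nat.even_mul_succ_self _).add_one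
  · exact (ch_eq_neg_one_iff r q hq hq2).1 hch
  · rintro ⟨w, rfl⟩
    apply hrn2
    rw [hu]
    exact ⟨w, by ring⟩

theorem pass_square {n : ℕ} (h : IsSquare n) : PassX (fl 1) (cl 1) n := by
  intro r q hr
  exfalso
  obtain ⟨hrp, -, hrn, hrn2⟩ := hr
  obtain ⟨m, rfl⟩ := h
  have h1 : r ∣ m := by
    rcases (Nat.Prime.dvd_mul hrp).1 hrn with h | h <;> exact h
  apply hrn2
  rw [pow_two]
  exact mul_dvd_mul h1 h1

theorem pass_primePow {n : ℕ} (h : IsPrimePow n) : PassX (fl 1) (cl 1) n := by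
  intro r q hr hq hqc hqf _ hch
  obtain ⟨hrp, -, hrn, hrn2⟩ := hr
  have hq2 : q ≠ 2 := by
    rintro rfl
    exact hqc (by decide)
  have hq3 : 2 < q := lt_of_le_of_ne hq.two_le (Ne.symm hq2)
  have : Fact q.Prime := ⟨hq⟩
  rw [fl_one] at hqf
  obtain ⟨p, k, hp, hk, rfl⟩ := h
  have hp' : p.Prime := hp.nat_prime
  have h1 : r = p := (Nat.prime_dvd_prime_iff_eq hrp hp').1 (hrp.dvd_of_dvd_pow hrn)
  subst h1
  have h2 : k = 1 := by
    by_contra hne
    exact hrn2 (pow_dvd_pow r (by omega))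
  subst h2
  rw [pow_one] at hqf
  have hqf' : q ∣ r ^ 2 + r + 1 := by exact_mod_cast hqf
  have h3 : ((r ^ 2 + r + 1 : ℕ) : ZMod q) = 0 := (ZMod.natCast_eq_zero_iff _ _).2 hqf'
  push_cast at h3
  have h4 : (r : ZMod q) ^ 3 = 1 := by linear_combination ((r : ZMod q) - 1) * h3
  have h5 := (ch_eq_neg_one_iff r q hq hq2).1 hch
  have h6 : ((r : ZMod q) ^ 3) ^ ((q - 1) / 2) = ((r : ZMod q) ^ ((q - 1) / 2)) ^ 3 := by
    rw [← pow_mul, ← pow_mul, mul_comm]
  rw [h4, one_pow] at h6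
  have h8 : (r : ZMod q) ^ ((q - 1) / 2) = -1 := by exact_mod_cast h5
  rw [h8] at h6
  have h7 : (1 : ZMod q) = -1 := h6.trans (by ring)
  have : Fact (2 < q) := ⟨hq3⟩
  exact ZMod.neg_one_ne_one h7.symm

theorem pass_trans (hM : TaskMain) {n : ℕ} (h : HasTrans n) : PassX (fl 1) (cl 1) n := by
  rcases cases hM h with h | h | h
  · exact pass_solv h
  · exact pass_square h
  · exact pass_primePow h

theorem count_trans (hM : TaskMain) (hP : TaskPolX) (hX : TaskMainX) (ε : ℝ) (hε : 0 < ε) :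
    ∃ C : ℝ, 0 < C ∧ ∀ X : ℕ, 3 ≤ X →
      ({n : ℕ | n ≤ X ∧ HasTrans n}.ncard : ℝ) ≤ C * X * (Real.log X) ^ (ε - 1) := by
  obtain ⟨C, hC, H⟩ := hX _ _ _ _ (hP 1 le_rfl) ε hε
  refine ⟨C, hC, fun X hX3 => le_trans ?_ (H X hX3)⟩
  have hfin : {n : ℕ | 1 ≤ n ∧ n ≤ X ∧ PassX (fl 1) (cl 1) n}.Finite :=
    (Set.finite_Iic X).subset fun n hn => hn.2.1
  exact_mod_cast Set.ncard_le_ncard (fun n hn => by
    obtain ⟨h2, hs⟩ := hn
    refine ⟨?_, h2, pass_trans hM hs⟩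
    obtain ⟨P, L, _, _, _, _, G, _, _, _, _, -, hn, -⟩ := hs
    have := one_lt_order P L
    omega) hfin

end Pool.Agent.H634R3.WG.Pass
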