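import Pool.Agent.H634R3.WG.XStmts
import Pool.Agent.H951R4.OD.D2b

/-!
# The second count for the exact prime divisors of the values
-/

set_option autoImplicit false

namespace Pool.Agent.H634R3.WG.TaskCountIIX

open Finset Pool.Agent.H951R4.OD Pool.Agent.H634R3.WG

theorem sum_mul_mod {M Pr : ℕ} (hM : 0 < M) (hcop : Nat.Coprime Pr M) (F : ℕ → ℝ)
    (hF : ∀ n, F n = F (n % M)) : ∑ n ∈ range M, F (Pr * n) = ∑ n ∈ range M, F n := by
  have hinj : Set.InjOn (fun n : ℕ => (Pr * n) % M) (range M : Set ℕ) := by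
    intro a ha b hb hab
    simp only [coe_range, Set.mem_Iio] at ha hb
    have h1 : Pr * a ≡ Pr * b [MOD M] := hab
    have h2 : a ≡ b [MOD M] :=
      Nat.ModEq.cancel_left_of_coprime (by simpa [Nat.coprime_comm] using hcop) h1
    exact Nat.ModEq.eq_of_lt_of_lt h2 ha hb
  have himg : (range M).image (fun n : ℕ => (Pr * n) % M) = range M := by
    apply Finset.eq_of_subset_of_card_le
    · intro x hx
      obtain ⟨a, -, rfl⟩ := mem_image.1 hx
      exact mem_range.2 (Nat.mod_lt _ hM)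
    · rw [Finset.card_image_of_injOn hinj]
  conv_rhs => rw [← himg]
  rw [Finset.sum_image hinj]
  refine Finset.sum_congr rfl fun n _ => ?_
  rw [hF (Pr * n)]

theorem sum_split (q m : ℕ) (F : ℕ → ℝ) :
    ∑ n ∈ range (q * m), F n = ∑ j ∈ range m, ∑ a ∈ range q, F (a + q * j) := by
  induction m with
  | zero => simp
  | succ m ih =>
    rw [Nat.mul_succ, Finset.sum_range_add, ih, Finset.sum_range_succ]
    congr 1
    refine Finset.sum_congr rfl fun a _ => ?_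
    rw [add_comm]

theorem dvd_per {f : ℕ → ℤ} {c0 : ℕ} {e : ℝ} {Δ : ℤ} (h : Pol f c0 e Δ) (q n j : ℕ) :
    (q : ℤ) ∣ f (n + q * j) ↔ (q : ℤ) ∣ f n := by
  have h1 := D2b_per h q n j
  constructor
  · intro h3
    have := dvd_sub h3 h1
    simpa using this
  · intro h3
    have := dvd_add h1 h3
    simpa using this

/-- number of zeros modulo `q ^ 2` of `f` modulo `q` -/
theorem cntA {f : ℕ → ℤ} {c0 : ℕ} {e : ℝ} {Δ : ℤ} (h : Pol f c0 e Δ) {q : ℕ} (hq : q.Prime)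
    (hqc : ¬ q ∣ c0) :
    ∑ n ∈ range (q ^ 2), (if (q : ℤ) ∣ f n then (1 : ℝ) else 0) = q * (1 + e * ch Δ q) := by
  rw [pow_two, sum_split, ← h.cnt q hq hqc, Finset.card_filter]
  push_cast
  have : ∀ j ∈ range q, ∑ a ∈ range q, (if (q : ℤ) ∣ f (a + q * j) then (1 : ℝ) else 0) =
      ∑ a ∈ range q, (if (q : ℤ) ∣ f a then (1 : ℝ) else 0) := by
    intro j _
    refine Finset.sum_congr rfl fun a _ => ?_
    rw [if_congr (dvd_per h q a j) rfl rfl]
  rw [Finset.sum_congr rfl this, Finset.sum_const, card_range, nsmul_eq_mul]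

/-- number of zeros modulo `q ^ 2` -/
theorem cntB {f : ℕ → ℤ} {c0 : ℕ} {e : ℝ} {Δ : ℤ} (h : PolX f c0 e Δ) {q : ℕ} (hq : q.Prime)
    (hqc : ¬ q ∣ c0) :
    ∑ n ∈ range (q ^ 2), (if (q : ℤ) ^ 2 ∣ f n then (1 : ℝ) else 0) ≤ 1 + e * ch Δ q := by
  rw [pow_two q, sum_split, Finset.sum_comm, ← h.cnt q hq hqc, Finset.card_filter]
  push_cast
  refine Finset.sum_le_sum fun a _ => ?_
  by_cases ha : (q : ℤ) ∣ f a
  · rw [if_pos ha]
    have h1 := h.lift q hq hqc a ha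
    rw [Finset.card_filter] at h1
    exact_mod_cast h1
  · rw [if_neg ha]
    apply le_of_eq
    apply Finset.sum_eq_zero
    intro j _
    rw [if_neg]
    intro h2
    apply ha
    rw [← dvd_per h.toPol q a j]
    exact (dvd_pow_self (q : ℤ) (by norm_num)).trans h2

open scoped Classical in
/-- the weights of the sieve -/
noncomputable def hx (f : ℕ → ℤ) (P Pr p n : ℕ) : ℝ :=
  if p ≤ P then (if (p ∣ n ∧ ¬ p ^ 2 ∣ n) then 1 else 0) else
    (if ((p : ℤ) ∣ f (Pr * n) ∧ ¬ (p : ℤ) ^ 2 ∣ f (Pr * n)) then 1 else 0)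

theorem hx_mean1 {f : ℕ → ℤ} {P Pr p : ℕ} (hp : p.Prime) (hP : p ≤ P) :
    (∑ n ∈ range (p ^ 2), hx f P Pr p n) / ((p ^ 2 : ℕ) : ℝ) = 1 / p - 1 / (p : ℝ) ^ 2 := by
  have hp0 : (0 : ℝ) < p := by exact_mod_cast hp.pos
  have e1 : ∀ n ∈ range (p ^ 2), hx f P Pr p n = (if (p ∣ n ∧ ¬ p ^ 2 ∣ n) then (1 : ℝ) else 0) := by
    intro n _
    simp only [hx, hP, if_true]
  rw [Finset.sum_congr rfl e1, D2b_cnt1 hp]
  push_cast
  field_simp

theorem hx_sum2 {f : ℕ → ℤ} {c0 : ℕ} {e : ℝ} {Δ : ℤ} (h : PolX f c0 e Δ) {P Pr q : ℕ}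
    (hq : q.Prime) (hP : P < q) (hqc : ¬ q ∣ c0) (hcop : Nat.Coprime Pr q) :
    ∑ n ∈ range (q ^ 2), hx f P Pr q n ≤ q * (1 + e * ch Δ q) ∧
    q * (1 + e * ch Δ q) - (1 + e * ch Δ q) ≤ ∑ n ∈ range (q ^ 2), hx f P Pr q n := by
  have hP' : ¬ q ≤ P := by omega
  have hM : 0 < q ^ 2 := pow_pos hq.pos 2
  have hcop2 : Nat.Coprime Pr (q ^ 2) := Nat.Coprime.pow_right 2 hcop
  have e1 : ∀ n ∈ range (q ^ 2), hx f P Pr q n =
      (if (q : ℤ) ∣ f (Pr * n) then (1 : ℝ) else 0) -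
      (if (q : ℤ) ^ 2 ∣ f (Pr * n) then (1 : ℝ) else 0) := by
    intro n _
    simp only [hx, hP', if_false]
    by_cases h1 : (q : ℤ) ^ 2 ∣ f (Pr * n)
    · have h2 : (q : ℤ) ∣ f (Pr * n) := (dvd_pow_self (q : ℤ) (by norm_num)).trans h1
      simp [h1, h2]
    · by_cases h2 : (q : ℤ) ∣ f (Pr * n)
      · simp [h1, h2]
      · simp [h1, h2]
  have e2 : ∑ n ∈ range (q ^ 2), (if (q : ℤ) ∣ f (Pr * n) then (1 : ℝ) else 0) =
      q * (1 + e * ch Δ q) := by
    rw [← cntA h.toPol hq hqc]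
    refine sum_mul_mod hM hcop2 (fun n => if (q : ℤ) ∣ f n then (1 : ℝ) else 0) ?_
    intro n
    have h1 := dvd_per h.toPol q (n % q ^ 2) (q * (n / q ^ 2))
    have h2 : n % q ^ 2 + q * (q * (n / q ^ 2)) = n := by
      rw [← mul_assoc, ← pow_two]; exact Nat.mod_add_div n (q ^ 2)
    rw [h2] at h1
    exact if_congr h1 rfl rfl
  have e3 : ∑ n ∈ range (q ^ 2), (if (q : ℤ) ^ 2 ∣ f (Pr * n) then (1 : ℝ) else 0) ≤
      1 + e * ch Δ q := by
    refine le_trans (le_of_eq ?_) (cntB h hq hqc)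
    refine sum_mul_mod hM hcop2 (fun n => if (q : ℤ) ^ 2 ∣ f n then (1 : ℝ) else 0) ?_
    intro n
    have h1 := dvd_per h.toPol (q ^ 2) (n % q ^ 2) (n / q ^ 2)
    rw [Nat.mod_add_div] at h1
    push_cast at h1
    exact if_congr h1 rfl rfl
  have e4 : 0 ≤ ∑ n ∈ range (q ^ 2), (if (q : ℤ) ^ 2 ∣ f (Pr * n) then (1 : ℝ) else 0) := by
    apply Finset.sum_nonneg
    intro n _
    split_ifs <;> norm_num
  rw [Finset.sum_congr rfl e1, Finset.sum_sub_distrib, e2]
  constructor <;> linarith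

theorem hx_h01 (f : ℕ → ℤ) (P Pr p n : ℕ) : hx f P Pr p n = 0 ∨ hx f P Pr p n = 1 := by
  unfold hx
  split_ifs <;> simp

theorem hx_hper {f : ℕ → ℤ} {c0 : ℕ} {e : ℝ} {Δ : ℤ} (h : Pol f c0 e Δ) (P Pr p n : ℕ) :
    hx f P Pr p (n + p ^ 2) = hx f P Pr p n := by
  unfold hx
  by_cases hP : p ≤ P
  · simp only [hP, if_true]
    have h1 : p ∣ n + p ^ 2 ↔ p ∣ n := (Nat.dvd_add_left (dvd_pow_self p (by norm_num)))
    have h2 : p ^ 2 ∣ n + p ^ 2 ↔ p ^ 2 ∣ n := (Nat.dvd_add_left (dvd_refl _))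
    simp only [h1, h2]
  · simp only [hP, if_false]
    have h1 := dvd_per h (p ^ 2) (Pr * n) Pr
    have h2 := dvd_per h p (Pr * n) (p * Pr)
    have e1 : Pr * (n + p ^ 2) = Pr * n + p ^ 2 * Pr := by ring
    have e2 : Pr * n + p * (p * Pr) = Pr * n + p ^ 2 * Pr := by ring
    rw [e2] at h2
    push_cast at h1
    rw [e1]
    simp only [h1, h2]

open scoped Classical in
/-- the elements of the set are sifted -/
theorem hx_sift {f : ℕ → ℤ} {c0 : ℕ} (ps : Finset ℕ) (hps : ∀ p ∈ ps, p.Prime) (S1 S2 : Finset ℕ)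
    (X y z : ℕ) (hS1 : ∀ r ∈ S1, r.Prime ∧ r ≤ ps.sup id ∧ ¬ r ∣ c0 ∧ r ∉ ps)
    (hS2 : ∀ q ∈ S2, q ∈ Bad c0 ps y z) (hy : ps.sup id ≤ y) :
    ({n : ℕ | 1 ≤ n ∧ n ≤ X ∧ PassX f c0 n ∧ (∀ p ∈ ps, Ex c0 n p) ∧
        ∀ p : ℕ, Ex c0 n p → p ≤ ps.sup id → p ∈ ps}.ncard : ℝ) ≤
      ∑ n ∈ Icc 1 (X / ∏ p ∈ ps, p), ∏ p ∈ S1 ∪ S2,
        (1 - hx f (ps.sup id) (∏ p ∈ ps, p) p n) := by
  set Pr : ℕ := ∏ p ∈ ps, p with hPr
  set P : ℕ := ps.sup id with hP
  have hPr0 : 0 < Pr := Finset.prod_pos fun p hp => (hps p hp).pos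
  set A : Set ℕ := {n : ℕ | 1 ≤ n ∧ n ≤ X ∧ PassX f c0 n ∧ (∀ p ∈ ps, Ex c0 n p) ∧
        ∀ p : ℕ, Ex c0 n p → p ≤ P → p ∈ ps} with hA
  set F : Finset ℕ := (Icc 1 (X / Pr)).filter (fun m => Pr * m ∈ A) with hF
  have hdiv : ∀ n : ℕ, (∀ p ∈ ps, Ex c0 n p) → Pr ∣ n := by
    intro n hn
    rw [hPr]
    apply Finset.prod_primes_dvd
    · intro p hp; exact (hps p hp).prime
    · intro p hp; exact (hn p hp).2.2.1
  have hsub : A ⊆ ((F.image (Pr * ·) : Finset ℕ) : Set ℕ) := by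
    intro n hn
    obtain ⟨m, rfl⟩ := hdiv n hn.2.2.2.1
    simp only [coe_image, Set.mem_image, mem_coe]
    refine ⟨m, ?_, rfl⟩
    rw [hF, mem_filter, mem_Icc]
    refine ⟨⟨?_, ?_⟩, hn⟩
    · rcases Nat.eq_zero_or_pos m with h | h
      · subst h; exact absurd hn.1 (by simp)
      · exact h
    · rw [Nat.le_div_iff_mul_le hPr0, mul_comm]; exact hn.2.1
  have hcard : (A.ncard : ℝ) ≤ F.card := by
    have h1 := Set.ncard_le_ncard hsub (Finset.finite_toSet _)
    rw [Set.ncard_coe_finset] at h1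
    have h2 := h1.trans Finset.card_image_le
    exact_mod_cast h2
  refine hcard.trans ?_
  rw [Finset.card_filter]
  push_cast
  refine Finset.sum_le_sum fun m _ => ?_
  by_cases hm : Pr * m ∈ A
  · rw [if_pos hm]
    apply le_of_eq
    symm
    apply Finset.prod_eq_one
    intro p hp
    have hzero : hx f P Pr p m = 0 := by
      rcases mem_union.1 hp with hp | hp
      · obtain ⟨h1, h2, h3, h4⟩ := hS1 p hp
        unfold hx
        rw [if_pos h2, if_neg]
        rintro ⟨h5, h6⟩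
        apply h4
        have hcop : Nat.Coprime Pr p := by
          rw [hPr]
          apply Nat.Coprime.prod_left
          intro q hq
          exact (Nat.coprime_primes (hps q hq) h1).2 (fun hh => h4 (hh ▸ hq))
        refine hm.2.2.2.2 p ⟨h1, h3, dvd_mul_of_dvd_right h5 _, ?_⟩ h2
        intro h7
        apply h6
        exact Nat.Coprime.dvd_of_dvd_mul_left (Nat.Coprime.pow_left 2 hcop.symm) h7
      · have hb := hS2 p hp
        have hb' : (P < p ∧ p.Prime) ∧ ¬ p ∣ c0 ∧ ∃ r ∈ ps, ch r p = -1 := by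
          simp only [Bad, PI, mem_filter, mem_Ioc] at hb
          exact ⟨⟨lt_of_le_of_lt hy hb.1.1.1, hb.1.2⟩, hb.2⟩
        obtain ⟨⟨h1, h2⟩, h3, r, hr, h4⟩ := hb'
        unfold hx
        rw [if_neg (by omega), if_neg]
        rintro ⟨h5, h6⟩
        exact hm.2.2.1 r p (hm.2.2.2.1 r hr) h2 h3 h5 h6 h4
    rw [hzero, sub_zero]
  · rw [if_neg hm]
    apply Finset.prod_nonneg
    intro p _
    rcases hx_h01 f P Pr p m with h | h <;> rw [h] <;> norm_num

open scoped Classical in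
theorem taskCountIIX : TaskCountIIX := by
  intro f c0 e Δ hX' k hk
  have h : Pol f c0 e Δ := hX'.toPol
  obtain ⟨Cs, hCs, hsieve⟩ := sieve
  obtain ⟨Cb, hCb, hbad⟩ := bad_lower h
  obtain ⟨Ci, hCi, hint⟩ := mert_int
  obtain ⟨Ca, hCa, hsmall⟩ := D2b_small c0 h.pos k
  obtain ⟨Cq, hCq, hsq⟩ := sum_sq_inv
  set K : ℝ := Real.log (2 * Cb) + 2 * k with hK
  have hkr : (1 : ℝ) ≤ k := by exact_mod_cast hk
  have hlogCb : 0 < Real.log (2 * Cb) := Real.log_pos (by linarith)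
  have hK1 : 1 ≤ K := by rw [hK]; linarith
  set C' : ℝ := Ca + Ci + Cb + Real.log K + 2 * Cq with hC'
  have hlogK : 0 ≤ Real.log K := Real.log_nonneg hK1
  have hC'0 : 0 ≤ C' := by positivity
  set δ : ℝ := (1 / 2 : ℝ) ^ k with hδ
  have hδ0 : 0 < δ := by positivity
  have hδ1 : δ ≤ 1 := pow_le_one₀ (by norm_num) (by norm_num)
  refine ⟨Cs * Real.exp C' + Cs + k + 1, ?_, ?_⟩
  · have : 0 ≤ Cs * Real.exp C' := by positivity
    have hk0 : (0 : ℝ) ≤ k := Nat.cast_nonneg k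
    linarith
  intro z X hz hX ps hpk hps
  set Pr : ℕ := ∏ p ∈ ps, p with hPr
  set P : ℕ := ps.sup id with hP
  have hz3 : (3 : ℝ) ≤ z := by exact_mod_cast hz
  have hexp : Real.exp 1 ≤ z := by
    have := Real.exp_one_lt_d9
    linarith
  have hlz : 1 ≤ Real.log z := by
    rw [Real.le_log_iff_exp_le (by linarith)]; exact hexp
  have hllz : 0 ≤ Real.log (Real.log z) := Real.log_nonneg hlz
  have hne : ps.Nonempty := by
    rw [← Finset.card_pos]; omega
  obtain ⟨P0, hP0, hP0'⟩ := Finset.exists_mem_eq_sup ps hne id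
  have hPP0 : P = P0 := hP0'
  have hPmem : P ∈ ps := by rw [hPP0]; exact hP0
  have hPprime : P.Prime := (hps P hPmem).1
  have hPz : P ≤ z := (hps P hPmem).2
  have hleP : ∀ p ∈ ps, p ≤ P := fun p hp => Finset.le_sup (f := id) hp
  have hPr0 : 0 < Pr := Finset.prod_pos fun p hp => (hps p hp).1.pos
  have hPPr : P ≤ Pr := Nat.le_of_dvd hPr0 (Finset.dvd_prod_of_mem _ hPmem)
  have hPrP : Pr ≤ P ^ k := by
    have := Finset.prod_le_pow_card ps (fun p => p) P hleP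
    rw [hpk] at this
    exact this
  have hPrz : Pr ≤ z ^ k := hPrP.trans (Nat.pow_le_pow_left hPz k)
  have hPrr : (1 : ℝ) ≤ Pr := by exact_mod_cast hPr0
  have hprod : (∏ p ∈ ps, (p : ℝ)) = (Pr : ℝ) := by rw [hPr]; push_cast; rfl
  rw [hprod]
  -- sizes
  have hlogPr : Real.log Pr ≤ k * Real.log z := by
    rw [← Real.log_pow]
    apply Real.log_le_log (by linarith)
    exact_mod_cast hPrz
  have hCC : (Cs + k + 1) * (Real.log z * (1 + Real.log (Real.log z))) ≤ Real.log X := by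
    refine le_trans ?_ hX
    rw [mul_assoc]
    apply mul_le_mul_of_nonneg_right _ (by positivity)
    have : 0 ≤ Cs * Real.exp C' := by positivity
    linarith
  have hL1 : Real.log z ≤ Real.log z * (1 + Real.log (Real.log z)) := by nlinarith
  set LL : ℝ := Real.log z * (1 + Real.log (Real.log z)) with hLL
  have hLL1 : 1 ≤ LL := hlz.trans hL1
  have hX0 : 0 < Real.log X := by
    have : 0 < (Cs + k + 1) * LL := by positivity
    linarith
  have hXpos : (1 : ℝ) < X := by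
    by_contra hcon
    push Not at hcon
    have := Real.log_nonpos (Nat.cast_nonneg X) hcon
    linarith
  have hlog2 : Real.log 2 ≤ Real.log z := Real.log_le_log (by norm_num) (by linarith)
  have hXPr : Real.log (2 * Pr) ≤ Real.log X := by
    rw [Real.log_mul (by norm_num) (by linarith)]
    have : (k : ℝ) * Real.log z ≤ k * LL := mul_le_mul_of_nonneg_left hL1 (by linarith)
    nlinarith
  have hXPr' : 2 * (Pr : ℝ) ≤ X := (Real.log_le_log_iff (by linarith) (by linarith)).1 hXPr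
  have hN2 : (X : ℝ) / (2 * Pr) ≤ ((X / Pr : ℕ) : ℝ) := by
    have h1 : (X : ℝ) / Pr < ((X / Pr : ℕ) : ℝ) + 1 := by
      rw [div_lt_iff₀ (by linarith)]
      have := Nat.lt_mul_div_succ X hPr0
      rw [mul_comm]
      exact_mod_cast this
    have h2 : (2 : ℝ) ≤ X / Pr := by
      rw [le_div_iff₀ (by linarith)]; exact hXPr'
    have h3 : (X : ℝ) / (2 * Pr) = (X / Pr) / 2 := by
      field_simp
    rw [h3]
    linarith
  have hNle : ((X / Pr : ℕ) : ℝ) ≤ X / Pr := Nat.cast_div_le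
  have hlogN : Cs * Real.log z * (1 + Real.log (Real.log z)) ≤ Real.log ((X / Pr : ℕ) : ℝ) := by
    have h1 : Real.log ((X : ℝ) / (2 * Pr)) ≤ Real.log ((X / Pr : ℕ) : ℝ) :=
      Real.log_le_log (by positivity) hN2
    rw [Real.log_div (by linarith) (by positivity), Real.log_mul (by norm_num) (by linarith)] at h1
    have : (k : ℝ) * Real.log z ≤ k * LL := mul_le_mul_of_nonneg_left hL1 (by linarith)
    rw [mul_assoc]
    nlinarith
  -- y
  set y : ℕ := ⌈Cb * (Pr : ℝ) ^ 2⌉₊ with hy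
  have hy1 : Cb * (Pr : ℝ) ^ 2 ≤ y := Nat.le_ceil _
  have hy2 : (y : ℝ) < Cb * (Pr : ℝ) ^ 2 + 1 := Nat.ceil_lt_add_one (by positivity)
  have hPy : P ≤ y := by
    have h1 : (P : ℝ) ≤ Pr := by exact_mod_cast hPPr
    have h2 : (P : ℝ) ≤ y := by nlinarith
    exact_mod_cast h2
  have hy3 : 3 ≤ y := by
    have h2 : (3 : ℝ) ≤ y := by nlinarith
    exact_mod_cast h2
  have hyr : (3 : ℝ) ≤ y := by exact_mod_cast hy3
  set P3 : ℝ := ((max P 3 : ℕ) : ℝ) with hP3
  have hP33 : (3 : ℝ) ≤ P3 := by rw [hP3]; exact_mod_cast le_max_right _ _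
  have hlP3 : 1 ≤ Real.log P3 := by
    rw [Real.le_log_iff_exp_le (by linarith)]
    have := Real.exp_one_lt_d9
    linarith
  have hlogy : Real.log y ≤ K * Real.log P3 := by
    have h1 : (y : ℝ) ≤ 2 * Cb * (Pr : ℝ) ^ 2 := by nlinarith
    have h2 : Real.log y ≤ Real.log (2 * Cb * (Pr : ℝ) ^ 2) := Real.log_le_log (by linarith) h1
    rw [Real.log_mul (by positivity) (by positivity), Real.log_pow] at h2
    have h3 : Real.log Pr ≤ k * Real.log P3 := by
      rw [← Real.log_pow]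
      apply Real.log_le_log (by linarith)
      have h4 : (Pr : ℝ) ≤ (P : ℝ) ^ k := by exact_mod_cast hPrP
      refine h4.trans (pow_le_pow_left₀ (Nat.cast_nonneg _) ?_ k)
      rw [hP3]; exact_mod_cast le_max_left _ _
    rw [hK]
    push_cast at h2
    nlinarith
  have hlogy0 : 0 < Real.log y := Real.log_pos (by linarith)
  have hlly : Real.log (Real.log y) ≤ Real.log K + Real.log (Real.log P3) := by
    rw [← Real.log_mul (by linarith) (by linarith)]
    exact Real.log_le_log hlogy0 hlogy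
  have hA0 : 0 ≤ Real.log (Real.log P3) := Real.log_nonneg hlP3
  -- the two sets
  set S1 : Finset ℕ := (PI 0 P).filter (fun r => ¬ r ∣ c0 ∧ r ∉ ps) with hS1
  set S2 : Finset ℕ := Bad c0 ps y z with hS2
  have hmem1 : ∀ r ∈ S1, r.Prime ∧ r ≤ P ∧ ¬ r ∣ c0 ∧ r ∉ ps := by
    intro r hr
    simp only [hS1, PI, mem_filter, mem_Ioc] at hr
    exact ⟨hr.1.2, hr.1.1.2, hr.2.1, hr.2.2⟩
  have hmem2 : ∀ q ∈ S2, q.Prime ∧ y < q ∧ q ≤ z ∧ ¬ q ∣ c0 := by
    intro q hq
    simp only [hS2, Bad, PI, mem_filter, mem_Ioc] at hq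
    exact ⟨hq.1.2, hq.1.1.1, hq.1.1.2, hq.2.1⟩
  have hdisj : Disjoint S1 S2 := by
    rw [Finset.disjoint_left]
    intro r h1 h2
    have := (hmem1 r h1).2.1
    have := (hmem2 r h2).2.1
    omega
  have hcop : ∀ q ∈ S2, Nat.Coprime Pr q := by
    intro q hq
    obtain ⟨h1, h2, -, -⟩ := hmem2 q hq
    rw [hPr]
    apply Nat.Coprime.prod_left
    intro p hp
    refine (Nat.coprime_primes (hps p hp).1 h1).2 (fun hh => ?_)
    have := hleP p hp
    omega
  have hme1 : ∀ r ∈ S1, (∑ n ∈ range (r ^ 2), hx f P Pr r n) / ((r ^ 2 : ℕ) : ℝ) =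
      1 / r - 1 / (r : ℝ) ^ 2 := fun r hr => hx_mean1 (hmem1 r hr).1 (hmem1 r hr).2.1
  have hchi : ∀ q : ℕ, 0 ≤ 1 + e * ch Δ q ∧ 1 + e * ch Δ q ≤ 2 := by
    intro q
    have h1 := abs_le.1 (D2b_ch_le Δ q)
    rcases h.e01 with he | he <;> rw [he] <;> constructor <;> linarith [h1.1, h1.2]
  have hme2 : ∀ q ∈ S2, (∑ n ∈ range (q ^ 2), hx f P Pr q n) / ((q ^ 2 : ℕ) : ℝ) ≤
      (1 + e * ch Δ q) / q ∧ (1 + e * ch Δ q) / q - 2 * (1 / (q : ℝ) ^ 2) ≤
      (∑ n ∈ range (q ^ 2), hx f P Pr q n) / ((q ^ 2 : ℕ) : ℝ) := by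
    intro q hq
    have hm := hmem2 q hq
    have hq0 : (0 : ℝ) < q := by exact_mod_cast hm.1.pos
    have h1 := hx_sum2 hX' (P := P) (Pr := Pr) hm.1 (by omega) hm.2.2.2 (hcop q hq)
    have h2 : (0 : ℝ) < ((q ^ 2 : ℕ) : ℝ) := by push_cast; positivity
    constructor
    · rw [div_le_iff₀ h2]
      push_cast
      have h3 : (1 + e * ch Δ q) / q * (q : ℝ) ^ 2 = q * (1 + e * ch Δ q) := by
        field_simp
      rw [h3]
      exact h1.1
    · rw [le_div_iff₀ h2]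
      push_cast
      have h3 : ((1 + e * ch Δ q) / q - 2 * (1 / (q : ℝ) ^ 2)) * (q : ℝ) ^ 2 =
          q * (1 + e * ch Δ q) - 2 := by
        field_simp
      rw [h3]
      have := (hchi q).2
      linarith [h1.2]
  have hs := hsieve z (X / Pr) hz hlogN (S1 ∪ S2) (fun p => p ^ 2) (hx f P Pr) (by
      intro p hp
      refine ⟨?_, ?_, Or.inr rfl⟩
      · rcases mem_union.1 hp with hp | hp
        · exact (hmem1 p hp).1
        · exact (hmem2 p hp).1
      · rcases mem_union.1 hp with hp | hp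
        · exact (hmem1 p hp).2.1.trans hPz
        · exact (hmem2 p hp).2.2.1) (fun p _ n => hx_h01 f P Pr p n)
      (fun p _ n => hx_hper h P Pr p n) (by
      intro p hp
      rcases mem_union.1 hp with hp | hp
      · refine (le_of_eq (hme1 p hp)).trans ?_
        have : (1 : ℝ) / p ≤ 2 / p := by
          apply div_le_div_of_nonneg_right (by norm_num) (Nat.cast_nonneg p)
        have : (0 : ℝ) ≤ 1 / (p : ℝ) ^ 2 := by positivity
        linarith
      · refine (hme2 p hp).1.trans ?_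
        apply div_le_div_of_nonneg_right (hchi p).2 (Nat.cast_nonneg p))
  have hsift := hx_sift (f := f) (c0 := c0) ps (fun p hp => (hps p hp).1) S1 S2 X y z hmem1
    (fun q hq => hq) hPy
  refine hsift.trans (hs.trans ?_)
  have h1 := hsmall ps hpk P hPprime.two_le
  have hsum2 : ∑ q ∈ S2, (1 + e * ch Δ q) / q - 2 * Cq ≤
      ∑ q ∈ S2, (∑ n ∈ range (q ^ 2), hx f P Pr q n) / ((q ^ 2 : ℕ) : ℝ) := by
    have h2 := Finset.sum_le_sum fun q hq => (hme2 q hq).2
    rw [Finset.sum_sub_distrib, ← Finset.mul_sum] at h2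
    have h3 := hsq S2
    linarith
  have hsumall : ∑ p ∈ S1 ∪ S2, (∑ n ∈ range (p ^ 2), hx f P Pr p n) / ((p ^ 2 : ℕ) : ℝ) =
      ∑ r ∈ S1, (1 / (r : ℝ) - 1 / (r : ℝ) ^ 2) +
      ∑ q ∈ S2, (∑ n ∈ range (q ^ 2), hx f P Pr q n) / ((q ^ 2 : ℕ) : ℝ) := by
    rw [Finset.sum_union hdisj, Finset.sum_congr rfl hme1]
  -- the lower bound of the sum of the means
  have hlow0 : (1 - δ) * Real.log (Real.log z) - (C' - 2 * Cq) ≤
      ∑ r ∈ S1, (1 / (r : ℝ) - 1 / (r : ℝ) ^ 2) + ∑ q ∈ S2, (1 + e * ch Δ q) / q := by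
    rcases Nat.lt_or_ge z y with hzy | hyz
    · have h2 : S2 = ∅ := by
        rw [Finset.eq_empty_iff_forall_notMem]
        intro q hq
        have := (hmem2 q hq).2
        omega
      rw [h2, Finset.sum_empty, add_zero]
      have h3 : Real.log (Real.log z) ≤ Real.log (Real.log y) := by
        apply Real.log_le_log (by linarith)
        apply Real.log_le_log (by linarith)
        exact_mod_cast hzy.le
      nlinarith
    · have h2 := hbad ps (fun p hp => (hps p hp).1) y z (by rw [hprod]; exact hy1) hyz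
      rw [hpk] at h2
      have h3 := (abs_le.1 (hint y z (by omega) hyz)).1
      rw [Real.log_div (by linarith) (by linarith)] at h3
      have h4 : (1 - δ) * (Real.log (Real.log z) - Real.log (Real.log y) - Ci) ≤
          (1 - δ) * ∑ q ∈ PI y z, (1 : ℝ) / q :=
        mul_le_mul_of_nonneg_left (by linarith) (by linarith)
      have h5 : (1 - δ) * Real.log (Real.log y) ≤ (1 - δ) * (Real.log K + Real.log (Real.log P3)) :=
        mul_le_mul_of_nonneg_left hlly (by linarith)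
      have h6 : 0 ≤ δ * Real.log K := by positivity
      have h7 : 0 ≤ δ * Real.log (Real.log P3) := by positivity
      have h8 : 0 ≤ δ * Ci := by positivity
      rw [hC']
      nlinarith
  set SS : ℝ := ∑ p ∈ S1 ∪ S2, (∑ n ∈ range (p ^ 2), hx f P Pr p n) / ((p ^ 2 : ℕ) : ℝ) with hSS
  have hlow : (1 - δ) * Real.log (Real.log z) - C' ≤ SS := by
    rw [hsumall]
    linarith
  have hexpo : Real.exp (-SS) ≤ Real.exp C' * (Real.log z) ^ (-1 + δ) := by
    rw [Real.rpow_def_of_pos (by linarith), ← Real.exp_add]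
    apply Real.exp_le_exp.2
    nlinarith
  have hrp : 0 ≤ (Real.log z) ^ (-1 + δ) := Real.rpow_nonneg (by linarith) _
  have hXP0 : (0 : ℝ) ≤ X / Pr := by positivity
  calc Cs * ((X / Pr : ℕ) : ℝ) * Real.exp (-SS)
      ≤ Cs * (X / Pr) * (Real.exp C' * (Real.log z) ^ (-1 + δ)) := by
        gcongr
    _ = (Cs * Real.exp C') * (X / Pr) * (Real.log z) ^ (-1 + δ) := by ring
    _ ≤ (Cs * Real.exp C' + Cs + k + 1) * (X / Pr) * (Real.log z) ^ (-1 + δ) := by
        apply mul_le_mul_of_nonneg_right _ hrp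
        apply mul_le_mul_of_nonneg_right _ hXP0
        linarith

end Pool.Agent.H634R3.WG.TaskCountIIX
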