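import Mathlib
import Pool.Agent.H634R3.WG.XStmts

set_option autoImplicit false

/-!
# Task TaskMainX: the combination of the two counts for the exact prime divisors

Copy of helper951's `D3` and `Main` (`Pool/Agent/H951R4/OD`), with `PassX` instead of `Pass`.
-/

namespace Pool.Agent.H634R3.WG.TaskMainX

open Finset Pool.Agent.H951R4.OD Pool.Agent.H634R3.WG

open Classical in
/-- the covering -/
theorem d3_coverX {f : ℕ → ℤ} {c0 : ℕ} (k z X : ℕ) :
    (Icc 1 X).filter (PassX f c0) ⊆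
      (((range k).biUnion (fun j => (PI 0 z).powersetCard j)).biUnion (fun ps =>
        (Icc 1 X).filter (fun n => (∀ p ∈ ps, Ex c0 n p) ∧
          ∀ p : ℕ, p ≤ z → Ex c0 n p → p ∈ ps))) ∪
      (((PI 0 z).powersetCard k).biUnion (fun ps =>
        (Icc 1 X).filter (fun n => PassX f c0 n ∧ (∀ p ∈ ps, Ex c0 n p) ∧
          ∀ p : ℕ, Ex c0 n p → p ≤ ps.sup id → p ∈ ps))) := by
  intro n hn
  rw [Finset.mem_filter] at hn
  obtain ⟨hn1, hn2⟩ := hn
  set T := (PI 0 z).filter (fun p => Ex c0 n p) with hT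
  have hTm : ∀ p, p ≤ z → Ex c0 n p → p ∈ T := by
    intro p hp he
    rw [hT, Finset.mem_filter]
    refine ⟨?_, he⟩
    unfold PI
    rw [Finset.mem_filter, Finset.mem_Ioc]
    exact ⟨⟨he.1.pos, hp⟩, he.1⟩
  have hTe : ∀ p ∈ T, Ex c0 n p := fun p hp => (Finset.mem_filter.1 hp).2
  have hTs : T ⊆ PI 0 z := Finset.filter_subset _ _
  rw [Finset.mem_union]
  by_cases hk : T.card < k
  · left
    rw [Finset.mem_biUnion]
    refine ⟨T, ?_, ?_⟩
    · rw [Finset.mem_biUnion]
      exact ⟨T.card, Finset.mem_range.2 hk, Finset.mem_powersetCard.2 ⟨hTs, rfl⟩⟩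
    · rw [Finset.mem_filter]
      exact ⟨hn1, hTe, hTm⟩
  · right
    push Not at hk
    have h0 : 0 ∉ T := fun h => Nat.not_prime_zero (hTe 0 h).1
    obtain ⟨ps, hps, hcard, hdown⟩ := d3_smallest T h0 k hk
    rw [Finset.mem_biUnion]
    refine ⟨ps, Finset.mem_powersetCard.2 ⟨hps.trans hTs, hcard⟩, ?_⟩
    rw [Finset.mem_filter]
    refine ⟨hn1, hn2, fun p hp => hTe p (hps hp), fun p he hle => ?_⟩
    apply hdown p _ hle
    apply hTm p _ he
    refine hle.trans (Finset.sup_le fun q hq => ?_)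
    have := hTs (hps hq)
    unfold PI at this
    rw [Finset.mem_filter, Finset.mem_Ioc] at this
    exact this.1.2

theorem combineX (hII : TaskCountIIX) {f : ℕ → ℤ} {c0 : ℕ} {e : ℝ} {Δ : ℤ} (h : PolX f c0 e Δ) (k : ℕ) (hk : 1 ≤ k) :
    ∃ C : ℝ, 1 ≤ C ∧ ∀ z X : ℕ, 3 ≤ z →
    C * Real.log z * (1 + Real.log (Real.log z)) ≤ Real.log X →
      ({n : ℕ | 1 ≤ n ∧ n ≤ X ∧ PassX f c0 n}.ncard : ℝ) ≤
      C * X * (1 + Real.log (Real.log z)) ^ k * (Real.log z) ^ (-1 + (1 / 2 : ℝ) ^ k : ℝ) := by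
  classical
  obtain ⟨C1, hC1, h1⟩ := countI c0 h.toPol.pos k
  obtain ⟨C2, hC2, h2⟩ := hII f c0 e Δ h k hk
  choose D hD1 hD using sum_inv_prod
  have hsum : 0 ≤ ∑ j ∈ range k, D j := sum_nonneg (fun j _ => by linarith [hD1 j])
  refine ⟨C1 + C2 + C1 * (∑ j ∈ range k, D j) + C2 * D k, ?_, fun z X hz hX => ?_⟩
  · have : 0 ≤ C1 * (∑ j ∈ range k, D j) := mul_nonneg (by linarith) hsum
    have : 0 ≤ C2 * D k := mul_nonneg (by linarith) (by linarith [hD1 k])
    linarith
  · obtain ⟨hlog, hll⟩ := d3_log hz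
    have hp1 : 0 ≤ C1 * (∑ j ∈ range k, D j) := mul_nonneg (by linarith) hsum
    have hp2 : 0 ≤ C2 * D k := mul_nonneg (by linarith) (by linarith [hD1 k])
    have hA : 0 ≤ Real.log z * (1 + Real.log (Real.log z)) := by positivity
    have hX1 : C1 * Real.log z * (1 + Real.log (Real.log z)) ≤ Real.log X := by
      refine le_trans ?_ hX
      rw [mul_assoc, mul_assoc]
      exact mul_le_mul_of_nonneg_right (by linarith) hA
    have hX2 : C2 * Real.log z * (1 + Real.log (Real.log z)) ≤ Real.log X := by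
      refine le_trans ?_ hX
      rw [mul_assoc, mul_assoc]
      exact mul_le_mul_of_nonneg_right (by linarith) hA
    set LL : ℝ := 1 + Real.log (Real.log z) with hLL
    set W : ℝ := (Real.log z) ^ (-1 + (1 / 2 : ℝ) ^ k : ℝ) with hW
    have hLL1 : 1 ≤ LL := by linarith
    have hW0 : 0 ≤ W := Real.rpow_nonneg (by linarith) _
    have hW1 : 1 / Real.log z ≤ W := by
      rw [hW, one_div, ← Real.rpow_neg_one]
      apply Real.rpow_le_rpow_of_exponent_le hlog
      have : (0 : ℝ) ≤ (1 / 2 : ℝ) ^ k := by positivity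
      linarith
    have hXn : (0 : ℝ) ≤ X := Nat.cast_nonneg _
    rw [d3_ncard]
    have hcov := Finset.card_le_card (d3_coverX (f := f) (c0 := c0) k z X)
    have hcov2 := (hcov.trans (Finset.card_union_le _ _)).trans
      (Nat.add_le_add Finset.card_biUnion_le Finset.card_biUnion_le)
    have hcov3 : (((Icc 1 X).filter (PassX f c0)).card : ℝ) ≤
        ∑ ps ∈ (range k).biUnion (fun j => (PI 0 z).powersetCard j),
          (((Icc 1 X).filter (fun n => (∀ p ∈ ps, Ex c0 n p) ∧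
            ∀ p : ℕ, p ≤ z → Ex c0 n p → p ∈ ps)).card : ℝ) +
        ∑ ps ∈ (PI 0 z).powersetCard k,
          (((Icc 1 X).filter (fun n => PassX f c0 n ∧ (∀ p ∈ ps, Ex c0 n p) ∧
            ∀ p : ℕ, Ex c0 n p → p ≤ ps.sup id → p ∈ ps)).card : ℝ) := by
      exact_mod_cast hcov2
    refine hcov3.trans ?_
    -- the first sum
    have hI : ∀ j ∈ range k, ∑ ps ∈ (PI 0 z).powersetCard j,
        (((Icc 1 X).filter (fun n => (∀ p ∈ ps, Ex c0 n p) ∧
            ∀ p : ℕ, p ≤ z → Ex c0 n p → p ∈ ps)).card : ℝ) ≤ D j * (C1 * X * LL ^ k * W) := by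
      intro j hj
      rw [Finset.mem_range] at hj
      have h3 : ∀ ps ∈ (PI 0 z).powersetCard j,
          (((Icc 1 X).filter (fun n => (∀ p ∈ ps, Ex c0 n p) ∧
            ∀ p : ℕ, p ≤ z → Ex c0 n p → p ∈ ps)).card : ℝ) ≤
          (C1 * X * W) * (1 / ∏ p ∈ ps, (p : ℝ)) := by
        intro ps hps
        obtain ⟨hc, hpp⟩ := d3_ps hps
        have h4 := h1 z X hz hX1 ps (by omega) hpp
        rw [d3_ncard] at h4
        refine h4.trans ?_
        have hpr : 0 ≤ 1 / ∏ p ∈ ps, (p : ℝ) := by positivity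
        have h5 : C1 * (X / ∏ p ∈ ps, (p : ℝ)) / Real.log z =
            (C1 * X * (1 / ∏ p ∈ ps, (p : ℝ))) * (1 / Real.log z) := by ring
        rw [h5]
        have h6 := mul_le_mul_of_nonneg_left hW1
          (show 0 ≤ C1 * X * (1 / ∏ p ∈ ps, (p : ℝ)) by positivity)
        linarith
      have h4 := Finset.sum_le_sum h3
      rw [← Finset.mul_sum] at h4
      have h5 := mul_le_mul_of_nonneg_left (hD j z hz) (show 0 ≤ C1 * X * W by positivity)
      have h6 : LL ^ j ≤ LL ^ k := pow_le_pow_right₀ hLL1 hj.le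
      have h7 := mul_le_mul_of_nonneg_left h6
        (show 0 ≤ C1 * X * W * D j from mul_nonneg (by positivity) (by linarith [hD1 j]))
      calc _ ≤ _ := h4
        _ ≤ C1 * X * W * (D j * LL ^ j) := h5
        _ = C1 * X * W * D j * LL ^ j := by ring
        _ ≤ C1 * X * W * D j * LL ^ k := h7
        _ = D j * (C1 * X * LL ^ k * W) := by ring
    have hI2 : ∑ ps ∈ (range k).biUnion (fun j => (PI 0 z).powersetCard j),
        (((Icc 1 X).filter (fun n => (∀ p ∈ ps, Ex c0 n p) ∧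
            ∀ p : ℕ, p ≤ z → Ex c0 n p → p ∈ ps)).card : ℝ) ≤
        (∑ j ∈ range k, D j) * (C1 * X * LL ^ k * W) := by
      rw [Finset.sum_biUnion]
      · rw [Finset.sum_mul]
        exact Finset.sum_le_sum hI
      · intro i _ j _ hij
        rw [Function.onFun, Finset.disjoint_left]
        intro ps h3 h4
        exact hij ((d3_ps h3).1.symm.trans (d3_ps h4).1)
    -- the second sum
    have hII : ∑ ps ∈ (PI 0 z).powersetCard k,
        (((Icc 1 X).filter (fun n => PassX f c0 n ∧ (∀ p ∈ ps, Ex c0 n p) ∧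
            ∀ p : ℕ, Ex c0 n p → p ≤ ps.sup id → p ∈ ps)).card : ℝ) ≤
        D k * (C2 * X * LL ^ k * W) := by
      have h3 : ∀ ps ∈ (PI 0 z).powersetCard k,
          (((Icc 1 X).filter (fun n => PassX f c0 n ∧ (∀ p ∈ ps, Ex c0 n p) ∧
            ∀ p : ℕ, Ex c0 n p → p ≤ ps.sup id → p ∈ ps)).card : ℝ) ≤
          (C2 * X * W) * (1 / ∏ p ∈ ps, (p : ℝ)) := by
        intro ps hps
        obtain ⟨hc, hpp⟩ := d3_ps hps
        have h4 := h2 z X hz hX2 ps hc hpp
        rw [d3_ncard] at h4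
        refine h4.trans (le_of_eq ?_)
        ring
      have h4 := Finset.sum_le_sum h3
      rw [← Finset.mul_sum] at h4
      have h5 := mul_le_mul_of_nonneg_left (hD k z hz) (show 0 ≤ C2 * X * W by positivity)
      calc _ ≤ _ := h4
        _ ≤ C2 * X * W * (D k * LL ^ k) := h5
        _ = D k * (C2 * X * LL ^ k * W) := by ring
    have hpos1 : 0 ≤ C1 * (X * LL ^ k * W) := by positivity
    have hpos2 : 0 ≤ C2 * (X * LL ^ k * W) := by positivity
    calc _ ≤ (∑ j ∈ range k, D j) * (C1 * X * LL ^ k * W) + D k * (C2 * X * LL ^ k * W) :=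
          add_le_add hI2 hII
      _ ≤ C1 * (X * LL ^ k * W) + C2 * (X * LL ^ k * W) +
          ((∑ j ∈ range k, D j) * (C1 * X * LL ^ k * W) + D k * (C2 * X * LL ^ k * W)) := by
        linarith
      _ = (C1 + C2 + C1 * (∑ j ∈ range k, D j) + C2 * D k) * X * LL ^ k * W := by ring

theorem mainX (hII : TaskCountIIX) {f : ℕ → ℤ} {c0 : ℕ} {e : ℝ} {Δ : ℤ} (h : PolX f c0 e Δ) (ε : ℝ) (hε : 0 < ε) :
    ∃ C : ℝ, 0 < C ∧ ∀ X : ℕ, 3 ≤ X →
      ({n : ℕ | 1 ≤ n ∧ n ≤ X ∧ PassX f c0 n}.ncard : ℝ) ≤ C * X * (Real.log X) ^ (ε - 1) := by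
  obtain ⟨k, hk, hkε⟩ := exists_pow_half_le (ε / 2) (by linarith)
  obtain ⟨C1, hC1, H⟩ := combineX hII h k hk
  set a : ℝ := ε / (2 * (k + 1)) with ha
  have ha0 : 0 < a := by positivity
  set C2 : ℝ := 2 * C1 ^ 2 * (1 + 1 / a) ^ (k + 1) with hC2
  have hC20 : 0 < C2 := by positivity
  refine ⟨36 * C1 ^ 2 + C2 + 1, by positivity, fun X hX => ?_⟩
  have hX3 : (3 : ℝ) ≤ X := by exact_mod_cast hX
  have hX0 : (0 : ℝ) < X := by linarith
  set L := Real.log X with hL
  have hL1 : 1 ≤ L := by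
    rw [hL, Real.le_log_iff_exp_le hX0]
    have := Real.exp_one_lt_d9
    linarith
  have hL0 : 0 < L := by linarith
  have hLpow : 0 < L ^ (ε - 1) := Real.rpow_pos_of_pos hL0 _
  have hlogL : 0 ≤ Real.log L := Real.log_nonneg hL1
  by_cases hbig : L < 36 * C1 ^ 2
  · -- trivial bound
    have h1 : ({n : ℕ | 1 ≤ n ∧ n ≤ X ∧ PassX f c0 n}.ncard : ℝ) ≤ X := by
      have h2 : {n : ℕ | 1 ≤ n ∧ n ≤ X ∧ PassX f c0 n} ⊆ (Icc 1 X : Finset ℕ) := by
        intro n hn
        simp only [Set.mem_ofPred_eq] at hn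
        simp only [coe_Icc, Set.mem_Icc]
        exact ⟨hn.1, hn.2.1⟩
      have h3 := Set.ncard_le_ncard h2 (Finset.finite_toSet _)
      rw [Set.ncard_coe_finset, Nat.card_Icc] at h3
      have : ({n : ℕ | 1 ≤ n ∧ n ≤ X ∧ PassX f c0 n}.ncard) ≤ X := by omega
      exact_mod_cast this
    refine h1.trans ?_
    have h4 : L⁻¹ ≤ L ^ (ε - 1) := by
      rw [← Real.rpow_neg_one]
      exact Real.rpow_le_rpow_of_exponent_le hL1 (by linarith)
    have h5 : 1 ≤ (36 * C1 ^ 2) * L ^ (ε - 1) := by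
      calc (1 : ℝ) = L * L⁻¹ := by field_simp
        _ ≤ (36 * C1 ^ 2) * L ^ (ε - 1) := by
          apply mul_le_mul hbig.le h4 (by positivity) (by positivity)
    have h6 : (36 * C1 ^ 2 + C2 + 1) * X * L ^ (ε - 1) =
        X * ((36 * C1 ^ 2) * L ^ (ε - 1)) + X * ((C2 + 1) * L ^ (ε - 1)) := by ring
    rw [h6]
    have h7 : 0 ≤ (X : ℝ) * ((C2 + 1) * L ^ (ε - 1)) := by positivity
    nlinarith
  · push Not at hbig
    -- the choice of `z`
    set s : ℝ := L / (C1 * (1 + Real.log L)) with hs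
    have hden : 0 < C1 * (1 + Real.log L) := by positivity
    have hs2 : 2 ≤ s := by
      rw [hs, le_div_iff₀ hden]
      have h1 := one_add_log_le (1 / 2) L (by norm_num) hL1
      rw [← Real.sqrt_eq_rpow] at h1
      have h2 : 6 * C1 ≤ Real.sqrt L := by
        apply Real.le_sqrt_of_sq_le
        nlinarith
      have h3 : Real.sqrt L * Real.sqrt L = L := Real.mul_self_sqrt hL0.le
      have h5 : (0:ℝ) ≤ Real.sqrt L := Real.sqrt_nonneg _
      have h4 : 1 + Real.log L ≤ 3 * Real.sqrt L := by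
        have : (1 + 1 / (1 / 2 : ℝ)) = 3 := by norm_num
        rw [this] at h1
        exact h1
      calc 2 * (C1 * (1 + Real.log L)) ≤ 2 * (C1 * (3 * Real.sqrt L)) := by
            apply mul_le_mul_of_nonneg_left _ (by norm_num)
            exact mul_le_mul_of_nonneg_left h4 (by linarith)
        _ = (6 * C1) * Real.sqrt L := by ring
        _ ≤ Real.sqrt L * Real.sqrt L := mul_le_mul_of_nonneg_right h2 h5
        _ = L := h3
    set z : ℕ := ⌊Real.exp s⌋₊ with hz
    have hexps : 4 ≤ Real.exp s := by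
      have h1 : Real.exp 2 ≤ Real.exp s := Real.exp_le_exp.2 hs2
      have h2 : Real.exp 2 = Real.exp 1 * Real.exp 1 := by rw [← Real.exp_add]; norm_num
      have h3 := Real.exp_one_gt_d9
      nlinarith
    have hz4 : 4 ≤ z := by
      rw [hz]
      exact Nat.le_floor (by exact_mod_cast hexps)
    have hz3 : 3 ≤ z := by omega
    have hz0 : (0 : ℝ) < z := by
      have : 0 < z := by omega
      exact_mod_cast this
    have hzle : (z : ℝ) ≤ Real.exp s := Nat.floor_le (Real.exp_pos s).le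
    have hzge : Real.exp s / 2 ≤ z := by
      have h1 : Real.exp s < z + 1 := Nat.lt_floor_add_one _
      linarith
    have hlogz_le : Real.log z ≤ s := by
      have := Real.log_le_log hz0 hzle
      rwa [Real.log_exp] at this
    have hlogz_ge : s / 2 ≤ Real.log z := by
      have h1 := Real.log_le_log (by positivity) hzge
      rw [Real.log_div (Real.exp_pos s).ne' (by norm_num), Real.log_exp] at h1
      have h2 : Real.log 2 ≤ 1 := by
        have := Real.log_two_lt_d9
        linarith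
      linarith
    have hlogz1 : 1 ≤ Real.log z := by linarith
    have hlogz0 : 0 < Real.log z := by linarith
    have hsL : s ≤ L := by
      rw [hs]
      apply div_le_self hL0.le
      nlinarith
    have hll : Real.log (Real.log z) ≤ Real.log L :=
      Real.log_le_log hlogz0 (hlogz_le.trans hsL)
    have hll0 : 0 ≤ Real.log (Real.log z) := Real.log_nonneg hlogz1
    have hcond : C1 * Real.log z * (1 + Real.log (Real.log z)) ≤ Real.log X := by
      calc C1 * Real.log z * (1 + Real.log (Real.log z)) ≤ C1 * s * (1 + Real.log L) := by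
            apply mul_le_mul _ (by linarith) (by linarith) (by positivity)
            exact mul_le_mul_of_nonneg_left hlogz_le (by linarith)
        _ = L := by
            rw [hs]
            field_simp
    have h1 := H z X hz3 hcond
    refine h1.trans ?_
    -- estimate the factors
    have e1 : (1 + Real.log (Real.log z)) ^ k ≤ (1 + Real.log L) ^ k :=
      pow_le_pow_left₀ (by linarith) (by linarith) k
    have hhalf : (0:ℝ) ≤ (1 / 2 : ℝ) ^ k := by positivity
    have hhalf1 : (1 / 2 : ℝ) ^ k ≤ 1 := pow_le_one₀ (by norm_num) (by norm_num)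
    have e2 : (Real.log z) ^ (-1 + (1 / 2 : ℝ) ^ k : ℝ) ≤
        2 * C1 * (1 + Real.log L) * L ^ (-1 + ε / 2) := by
      have f1 : (Real.log z) ^ (-1 + (1 / 2 : ℝ) ^ k : ℝ) ≤ (s / 2) ^ (-1 + (1 / 2 : ℝ) ^ k : ℝ) :=
        Real.rpow_le_rpow_of_nonpos (by linarith) hlogz_ge (by linarith)
      refine f1.trans ?_
      have f2 : s / 2 = L / (2 * (C1 * (1 + Real.log L))) := by
        rw [hs, div_div]
        ring_nf
      rw [f2, Real.div_rpow hL0.le (by positivity)]
      have f3 : L ^ (-1 + (1 / 2 : ℝ) ^ k : ℝ) ≤ L ^ (-1 + ε / 2) :=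
        Real.rpow_le_rpow_of_exponent_le hL1 (by linarith)
      have f4 : (1 : ℝ) ≤ 2 * (C1 * (1 + Real.log L)) := by nlinarith
      have f5 : ((2 * (C1 * (1 + Real.log L))) ^ (-1 + (1 / 2 : ℝ) ^ k : ℝ))⁻¹ ≤
          2 * (C1 * (1 + Real.log L)) := by
        rw [← Real.rpow_neg (by linarith)]
        calc (2 * (C1 * (1 + Real.log L))) ^ (-(-1 + (1 / 2 : ℝ) ^ k) : ℝ)
            ≤ (2 * (C1 * (1 + Real.log L))) ^ (1 : ℝ) :=
              Real.rpow_le_rpow_of_exponent_le f4 (by linarith)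
          _ = _ := Real.rpow_one _
      rw [div_eq_mul_inv]
      calc L ^ (-1 + (1 / 2 : ℝ) ^ k : ℝ) *
            ((2 * (C1 * (1 + Real.log L))) ^ (-1 + (1 / 2 : ℝ) ^ k : ℝ))⁻¹
          ≤ L ^ (-1 + ε / 2) * (2 * (C1 * (1 + Real.log L))) :=
            mul_le_mul f3 f5 (by positivity) (by positivity)
        _ = _ := by ring
    have e3 : (1 + Real.log L) ^ (k + 1) ≤ (1 + 1 / a) ^ (k + 1) * L ^ (ε / 2) := by
      have f1 := one_add_log_le a L ha0 hL1
      calc (1 + Real.log L) ^ (k + 1) ≤ ((1 + 1 / a) * L ^ a) ^ (k + 1) :=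
            pow_le_pow_left₀ (by linarith) f1 _
        _ = (1 + 1 / a) ^ (k + 1) * L ^ (ε / 2) := by
            rw [mul_pow, ← Real.rpow_natCast (L ^ a), ← Real.rpow_mul hL0.le]
            congr 2
            rw [ha]
            push_cast
            field_simp
    have e4 : C1 * X * (1 + Real.log (Real.log z)) ^ k *
        (Real.log z) ^ (-1 + (1 / 2 : ℝ) ^ k : ℝ) ≤ C2 * X * L ^ (ε - 1) := by
      calc C1 * X * (1 + Real.log (Real.log z)) ^ k * (Real.log z) ^ (-1 + (1 / 2 : ℝ) ^ k : ℝ)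
          ≤ C1 * X * (1 + Real.log L) ^ k * (2 * C1 * (1 + Real.log L) * L ^ (-1 + ε / 2)) := by
            apply mul_le_mul _ e2 (by positivity) (by positivity)
            exact mul_le_mul_of_nonneg_left e1 (by positivity)
        _ = 2 * C1 ^ 2 * X * (1 + Real.log L) ^ (k + 1) * L ^ (-1 + ε / 2) := by ring
        _ ≤ 2 * C1 ^ 2 * X * ((1 + 1 / a) ^ (k + 1) * L ^ (ε / 2)) * L ^ (-1 + ε / 2) := by
            apply mul_le_mul_of_nonneg_right _ (by positivity)
            exact mul_le_mul_of_nonneg_left e3 (by positivity)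
        _ = C2 * X * (L ^ (ε / 2) * L ^ (-1 + ε / 2)) := by rw [hC2]; ring
        _ = C2 * X * L ^ (ε - 1) := by
            rw [← Real.rpow_add hL0]
            congr 2
            ring
    refine e4.trans ?_
    have h6 : (36 * C1 ^ 2 + C2 + 1) * X * L ^ (ε - 1) =
        C2 * X * L ^ (ε - 1) + (36 * C1 ^ 2 + 1) * X * L ^ (ε - 1) := by ring
    rw [h6]
    have h7 : 0 ≤ (36 * C1 ^ 2 + 1) * X * L ^ (ε - 1) := by positivity
    linarith

theorem taskMainX (h : TaskCountIIX) : Pool.Agent.H634R3.WG.TaskMainX := by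
  intro f c0 e Δ hP ε hε
  exact mainX h hP ε hε

end Pool.Agent.H634R3.WG.TaskMainX
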