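import Pool.Agent.H634R3.WG.XStmts

set_option autoImplicit false

/-!
# `fl lam` satisfies `PolX`
-/

namespace Pool.Agent.H634R3.WG.TaskPolX

open Finset Pool.Agent.H951R4.OD Pool.Agent.H634R3.WG

theorem taskPolX : TaskPolX := by
  intro lam hl
  refine { toPol := pol_fl lam hl, lift := ?_ }
  intro q hq hqc a ha
  rw [Finset.card_le_one]
  intro j hj j' hj'
  rw [Finset.mem_filter, Finset.mem_range] at hj hj'
  have hqp : Prime (q : ℤ) := Nat.prime_iff_prime_int.mp hq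
  have hq0 : (q : ℤ) ≠ 0 := hqp.ne_zero
  have hD : ¬ (q : ℤ) ∣ 2 * (a : ℤ) + 2 * lam - 1 := by
    intro hd
    have h1 : (q : ℤ) ∣ 4 * (lam : ℤ) - 1 := by
      have e1 : 4 * (lam : ℤ) - 1 =
          4 * fl lam a - (2 * (a : ℤ) + 2 * lam - 1) * (2 * (a : ℤ) + 2 * lam - 1) := by
        unfold fl; ring
      rw [e1]
      exact dvd_sub (Dvd.dvd.mul_left ha _) (Dvd.dvd.mul_left hd _)
    apply hqc
    have h2 : q ∣ 4 * lam - 1 := by
      have e2 : ((4 * lam - 1 : ℕ) : ℤ) = 4 * (lam : ℤ) - 1 := by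
        rw [Nat.cast_sub (by omega)]; push_cast; ring
      have h3 : (q : ℤ) ∣ ((4 * lam - 1 : ℕ) : ℤ) := by rw [e2]; exact h1
      exact_mod_cast h3
    unfold cl
    exact Dvd.dvd.mul_left h2 _
  have h4 : (q : ℤ) ^ 2 ∣ fl lam (a + q * j) - fl lam (a + q * j') := dvd_sub hj.2 hj'.2
  have e3 : fl lam (a + q * j) - fl lam (a + q * j') =
      q * (((j : ℤ) - j') * ((2 * (a : ℤ) + 2 * lam - 1) + q * (j + j'))) := by
    unfold fl; push_cast; ring
  rw [e3, pow_two] at h4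
  have h5 : (q : ℤ) ∣ ((j : ℤ) - j') * ((2 * (a : ℤ) + 2 * lam - 1) + q * (j + j')) :=
    Int.dvd_of_mul_dvd_mul_left hq0 h4
  rcases hqp.dvd_or_dvd h5 with h6 | h6
  · have h7 : |(j : ℤ) - j'| < q := by
      have a1 := hj.1
      have a2 := hj'.1
      rw [abs_lt]; constructor <;> omega
    have h8 := Int.eq_zero_of_abs_lt_dvd h6 h7
    omega
  · exfalso
    apply hD
    have := dvd_sub h6 (Dvd.intro ((j : ℤ) + j') rfl : (q : ℤ) ∣ q * (j + j'))
    simpa using this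

end Pool.Agent.H634R3.WG.TaskPolX
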