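import Mathlib
import Pool.Agent.H634R3.WG.All
import Pool.Agent.H634R3.WG.Pass
import Pool.Agent.H634R3.WG.TaskPolX
import Pool.Agent.H634R3.WG.TaskCountIIX
import Pool.Agent.H634R3.WG.TaskMainX

set_option autoImplicit false

/-!
# The number of orders of point-transitive planes
-/

namespace Pool.Agent.H634R3.WG

open Pool.Agent.H634R3.WG.Final

theorem mainX : TaskMainX := TaskMainX.taskMainX TaskCountIIX.taskCountIIX

theorem count_trans (ε : ℝ) (hε : 0 < ε) :
    ∃ C : ℝ, 0 < C ∧ ∀ X : ℕ, 3 ≤ X →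
      ({n : ℕ | n ≤ X ∧ HasTrans n}.ncard : ℝ) ≤ C * X * (Real.log X) ^ (ε - 1) :=
  Pass.count_trans main_step TaskPolX.taskPolX mainX ε hε

end Pool.Agent.H634R3.WG
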