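import Mathlib
import Pool.Agent.H634R3.WG.Lam
import Pool.Agent.H634R3.PPC.Final

set_option autoImplicit false

/-!
# Automorphisms of fixed odd prime order of symmetric designs: parity of the number of moved points
-/

namespace Pool.Agent.H634R3.WG.Lam

open Finset Pool.Agent.H634R3.PPC Pool.Agent.H951R4.OD MulAction Filter Topology
open Pool.Agent.H771R2.Dens

theorem cls_bot {G X : Type} [Group G] [MulAction G X] {x y : X} :
    cls (⊥ : Subgroup G) x = cls (⊥ : Subgroup G) y ↔ x = y := by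
  rw [cls_eq]
  constructor
  · rintro ⟨h, hh, h2⟩
    rw [Subgroup.mem_bot] at hh
    rw [hh, one_smul] at h2
    exact h2.symm
  · rintro rfl
    exact ⟨1, Subgroup.mem_bot.2 rfl, one_smul _ _⟩

open Classical in
theorem sz_bot {G X : Type} [Group G] [Fintype X] [MulAction G X]
    (α : orbitRel.Quotient (⊥ : Subgroup G) X) : sz (⊥ : Subgroup G) α = 1 := by
  obtain ⟨x, rfl⟩ := cls_surj (⊥ : Subgroup G) α
  unfold sz
  rw [Finset.card_eq_one]
  refine ⟨x, ?_⟩
  ext y
  simp only [Finset.mem_filter, Finset.mem_univ, true_and, Finset.mem_singleton]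
  rw [cls_bot]

theorem test_mov {v k lam : ℕ} {B : Fin v → Finset (Fin v)} (hv : 2 ≤ v) (hlam : 1 ≤ lam)
    (hkv : k < v) (hk : ∀ i, (B i).card = k)
    (hp : ∀ x y : Fin v, x ≠ y →
      (Finset.univ.filter (fun i => x ∈ B i ∧ y ∈ B i)).card = lam)
    {σ : Equiv.Perm (Fin v)} (haut : ∀ i, ∃ j, (B i).image σ = B j) {q : ℕ} (hq : q.Prime)
    (hq2 : 2 < q) (ho : orderOf σ = q) (hodd : Odd (univ.filter (fun x => σ x ≠ x)).card)
    {r : ℕ} (hr : r.Prime) {j : ℕ} (hj : (r : ZMod q) ^ j = -1)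
    (h1 : r ∣ k - lam) (h2 : ¬ r ^ 2 ∣ k - lam) : False := by
  classical
  have hinj := blocks_inj hv hlam hkv hk hp
  choose τ hτ using haut
  have hτi : Function.Injective τ := by
    intro i j hij
    apply hinj
    have h1 := hτ i
    rw [hij, ← hτ j] at h1
    exact Finset.image_injective σ.injective h1
  let τ' : Equiv.Perm (Fin v) := Equiv.ofBijective τ (Finite.injective_iff_bijective.1 hτi)
  let g : pairs B (⊤ : Subgroup (Equiv.Perm (Fin v))) := ⟨(σ, τ'), Subgroup.mem_top _, by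
    intro z i
    show σ z ∈ B (τ i) ↔ z ∈ B i
    rw [← hτ i, Finset.mem_image]
    constructor
    · rintro ⟨w, hw, hwz⟩
      rwa [← σ.injective hwz]
    · intro hz
      exact ⟨z, hz, rfl⟩⟩
  have : Fintype (pairs B (⊤ : Subgroup (Equiv.Perm (Fin v)))) := Fintype.ofFinite _
  have hext : ∀ a b : pairs B (⊤ : Subgroup (Equiv.Perm (Fin v))), a.1.1 = b.1.1 → a = b := by
    intro a b h1
    apply Subtype.ext
    refine Prod.ext h1 ?_
    ext1 i
    apply hinj
    ext x
    have h2 := a.2.2 (a.1.1.symm x) i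
    have h3 := b.2.2 (b.1.1.symm x) i
    rw [Equiv.apply_symm_apply] at h2 h3
    rw [h2, h3, h1]
  have hgq : g ^ q = 1 := by
    apply hext
    show (g ^ q).1.1 = 1
    have h3 : (g ^ q).1 = g.1 ^ q := rfl
    rw [h3, Prod.pow_fst]
    show σ ^ q = 1
    rw [← ho]
    exact pow_orderOf_eq_one σ
  have hn : Nrm (⊥ : Subgroup (pairs B (⊤ : Subgroup (Equiv.Perm (Fin v))))) g := by
    constructor
    · intro h hh
      rw [Subgroup.mem_bot] at hh ⊢
      rw [hh]
      group
    · intro h hh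
      rw [Subgroup.mem_bot] at hh ⊢
      rw [hh]
      group
  obtain ⟨u, hu⟩ := h1
  refine orb_test (des_blk hv hlam hkv hk hp) (fun g p b => g.2.2 p b.i) ⊥ hn hq hq2
    (Subgroup.mem_bot.2 hgq) one_pos (fun α _ => sz_bot α) (fun β _ => sz_bot β) ?_ hr hj
    odd_one (u := u) ?_ (by rw [pow_one]; exact hu)
  · have h3 : (univ.filter (fun α : orbitRel.Quotient
        (⊥ : Subgroup (pairs B (⊤ : Subgroup (Equiv.Perm (Fin v))))) (Fin v) =>
          bar ⊥ hn α ≠ α)).card = (univ.filter (fun x => σ x ≠ x)).card := by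
      symm
      refine Finset.card_bij (fun x _ => cls ⊥ x) ?_ ?_ ?_
      · intro x hx
        simp only [Finset.mem_filter, Finset.mem_univ, true_and] at hx ⊢
        rw [bar_cls]
        intro h4
        exact hx (cls_bot.1 h4)
      · intro a _ b _ hab
        exact cls_bot.1 hab
      · intro α hα
        obtain ⟨x, rfl⟩ := cls_surj (⊥ : Subgroup (pairs B (⊤ : Subgroup (Equiv.Perm (Fin v))))) α
        simp only [Finset.mem_filter, Finset.mem_univ, true_and] at hα
        refine ⟨x, ?_, rfl⟩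
        simp only [Finset.mem_filter, Finset.mem_univ, true_and]
        intro h4
        apply hα
        rw [bar_cls, cls_bot]
        exact h4
    rw [h3]
    exact hodd
  · rintro ⟨w, rfl⟩
    apply h2
    rw [hu]
    exact ⟨w, by ring⟩

/-- a symmetric design of order `n` with an automorphism of order `q` which moves an odd number of
points -/
def HasMov (q n : ℕ) : Prop :=
  ∃ (v k lam : ℕ) (B : Fin v → Finset (Fin v)) (σ : Equiv.Perm (Fin v)),
    1 ≤ lam ∧ 2 ≤ v ∧ k < v ∧ k = n + lam ∧ (∀ i, (B i).card = k) ∧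
    (∀ x y : Fin v, x ≠ y →
      (Finset.univ.filter (fun i => x ∈ B i ∧ y ∈ B i)).card = lam) ∧
    (∀ i, ∃ j, (B i).image σ = B j) ∧ orderOf σ = q ∧
    Odd (Finset.univ.filter (fun x => σ x ≠ x)).card

theorem density_mov {q : ℕ} (hq : q.Prime) (hq2 : q ≠ 2) :
    Tendsto (fun N : ℕ => (cnt (fun n => HasMov q n) N : ℝ) / N) atTop (𝓝 0) := by
  have hq3 : 2 < q := by
    have := hq.two_le
    omega
  have : NeZero q := ⟨hq.ne_zero⟩
  obtain ⟨a, ha, ha2⟩ := exists_nonres hq hq3
  refine tendsto_zero _ (fun p => (p : ZMod 1) = 1) (fun _ => 0) (fun _ r => (r : ZMod q) = a)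
    (big_ap isUnit_one) (fun _ _ _ => big_ap ha) ?_
  rintro n ⟨v, k, lam, B, σ, hl, hv, hkv, hkn, hk, hp, haut, ho, hodd⟩ q' _ _ _ r hr hra hrn hrn2
  have hkl : k - lam = n := by omega
  refine test_mov hv hl hkv hk hp haut hq hq3 ho hodd hr (j := (q - 1) / 2) ?_ (hkl ▸ hrn)
    (hkl ▸ hrn2)
  rw [hra]
  exact ha2

end Pool.Agent.H634R3.WG.Lam
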